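import Pool.Agent.helper65.T1.SpecN

/-!
# NSP: size and separation of the points `u / (1 - X u)`
-/

set_option autoImplicit false

open MeasureTheory

namespace Pool.Agent.T1

theorem NSP_den {N : ℕ} {X : ℝ} (hN : 1 ≤ N) (hX : |X| ≤ 1 / 4) {k : ℤ} (hk : |k| ≤ 2 * N) :
    |(k : ℝ) / N| ≤ 2 ∧ 1 / 2 ≤ 1 - X * ((k : ℝ) / N) ∧ 1 - X * ((k : ℝ) / N) ≤ 3 / 2 := by
  have hN0 : (0 : ℝ) < N := by exact_mod_cast hN
  have h1 : |(k : ℝ)| ≤ 2 * N := by
    have h2 : ((|k| : ℤ) : ℝ) ≤ ((2 * N : ℤ) : ℝ) := by exact_mod_cast hk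
    push_cast at h2
    exact h2
  have h2 : |(k : ℝ) / N| ≤ 2 := by
    rw [abs_div, abs_of_pos hN0, div_le_iff₀ hN0]
    exact h1
  have h3 : |X * ((k : ℝ) / N)| ≤ 1 / 2 := by
    rw [abs_mul]
    calc |X| * |(k : ℝ) / N| ≤ (1 / 4) * 2 := mul_le_mul hX h2 (abs_nonneg _) (by norm_num)
      _ = 1 / 2 := by norm_num
  have h4 := abs_le.1 h3
  exact ⟨h2, by linarith [h4.2], by linarith [h4.1]⟩

theorem NSP_abs {N : ℕ} {X : ℝ} (hN : 1 ≤ N) (hX : |X| ≤ 1 / 4) {k : ℤ} (hk : |k| ≤ 2 * N) : |Nsx N X k| ≤ 4 := by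
  obtain ⟨h1, h2, h3⟩ := NSP_den hN hX hk
  have hd : 0 < 1 - X * ((k : ℝ) / N) := by linarith
  unfold Nsx
  rw [abs_div, abs_of_pos hd, div_le_iff₀ hd]
  linarith

theorem NSP_sep {N : ℕ} {X : ℝ} (hN : 1 ≤ N) (hX : |X| ≤ 1 / 4) {k k' : ℤ} (hk : |k| ≤ 2 * N) (hk' : |k'| ≤ 2 * N) :
    |(k : ℝ) - k'| ≤ 3 * N * |Nsx N X k - Nsx N X k'| := by
  obtain ⟨h1, h2, h3⟩ := NSP_den hN hX hk
  obtain ⟨h1', h2', h3'⟩ := NSP_den hN hX hk'
  have hN0 : (0 : ℝ) < N := by exact_mod_cast hN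
  set d := 1 - X * ((k : ℝ) / N) with hd
  set d' := 1 - X * ((k' : ℝ) / N) with hd'
  have hp : 0 < d := by linarith
  have hp' : 0 < d' := by linarith
  have e1 : Nsx N X k - Nsx N X k' = ((k : ℝ) - k') / (N * (d * d')) := by
    unfold Nsx
    rw [← hd, ← hd']
    rw [div_sub_div _ _ hp.ne' hp'.ne', div_eq_div_iff (by positivity) (by positivity)]
    have e2 : (k : ℝ) / N * d' - d * ((k' : ℝ) / N) = ((k : ℝ) - k') / N := by
      rw [hd, hd']
      ring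
    rw [e2]
    field_simp
  have hdd : d * d' ≤ 9 / 4 := by nlinarith
  rw [e1, abs_div, abs_of_pos (by positivity : (0 : ℝ) < N * (d * d'))]
  rw [← mul_div_assoc, le_div_iff₀ (by positivity)]
  have h4 : 0 ≤ |(k : ℝ) - k'| := abs_nonneg _
  calc |(k : ℝ) - k'| * (N * (d * d')) ≤ |(k : ℝ) - k'| * (N * (9 / 4)) :=
        mul_le_mul_of_nonneg_left (mul_le_mul_of_nonneg_left hdd hN0.le) h4
    _ ≤ 3 * N * |(k : ℝ) - k'| := by nlinarith [mul_nonneg h4 hN0.le]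

theorem NSP_proof : NSP_stmt := by
  intro N X hN hX
  refine ⟨fun k hk => NSP_abs hN hX hk, fun k k' hk hk' => NSP_sep hN hX hk hk', ?_⟩
  intro U x ℓ hU hℓ
  have hN0 : (0 : ℝ) < N := by exact_mod_cast hN
  set A : Finset ℤ := {k ∈ U | x ≤ Nsx N X k ∧ Nsx N X k ≤ x + ℓ} with hA
  rcases A.eq_empty_or_nonempty with h0 | h0
  · rw [h0]
    simp only [Finset.card_empty, Nat.cast_zero]
    positivity
  · have hm := Finset.min'_mem A h0
    have hM := Finset.max'_mem A h0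
    have hsub : A ⊆ Finset.Icc (A.min' h0) (A.max' h0) := by
      intro k hk
      rw [Finset.mem_Icc]
      exact ⟨Finset.min'_le A k hk, Finset.le_max' A k hk⟩
    have hc := Finset.card_le_card hsub
    rw [Int.card_Icc] at hc
    have hle : A.min' h0 ≤ A.max' h0 := Finset.min'_le A _ hM
    have hc2 : (A.card : ℤ) ≤ A.max' h0 + 1 - A.min' h0 := by
      have h5 : (A.card : ℤ) ≤ ((A.max' h0 + 1 - A.min' h0).toNat : ℤ) := by exact_mod_cast hc
      rwa [Int.toNat_of_nonneg (by linarith)] at h5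
    have hc3 : (A.card : ℝ) ≤ (A.max' h0 : ℝ) + 1 - A.min' h0 := by exact_mod_cast hc2
    generalize A.min' h0 = a at *
    generalize A.max' h0 = b at *
    rw [hA, Finset.mem_filter] at hm hM
    have h6 := NSP_sep hN hX (hU _ hM.1) (hU _ hm.1)
    have h7 : |Nsx N X b - Nsx N X a| ≤ ℓ := by
      rw [abs_le]
      exact ⟨by linarith [hM.2.1, hm.2.2], by linarith [hM.2.2, hm.2.1]⟩
    have h8 : (b : ℝ) - a ≤ 3 * N * ℓ :=
      le_trans (le_abs_self _) (h6.trans (mul_le_mul_of_nonneg_left h7 (by positivity)))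
    linarith

end Pool.Agent.T1
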