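import Pool.Agent.helper47.T1.SpecE1
import Pool.Agent.helper65.RS.BK4

/-!
# QBT: bounds for the limit function of the boundary integrals
-/

set_option autoImplicit false

open scoped MatrixGroups ContDiff Topology UpperHalfPlane ComplexConjugate
open UpperHalfPlane MeasureTheory Filter Set

namespace Pool.Agent.T1

open Pool.Agent.RS Pool.Agent.MS

theorem QBT_int {M : ℝ} {f : ℝ → ℂ} (h0 : ∀ x, ¬ |x| ≤ 1 / 4 → f x = 0) (h1 : ∀ x, ‖f x‖ ≤ M) : ‖∫ x, f x‖ ≤ M / 2 := by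
  have h2 : ∫ x, f x = ∫ x in Icc (-(1 / 4 : ℝ)) (1 / 4), f x := by
    rw [setIntegral_eq_integral_of_forall_compl_eq_zero]
    intro x hx
    apply h0
    intro h
    exact hx (abs_le.1 h)
  rw [h2]
  have h3 := norm_setIntegral_le_of_norm_le_const (μ := volume) (s := Icc (-(1 / 4 : ℝ)) (1 / 4)) (f := f) (C := M)
    (by rw [Real.volume_Icc]; exact ENNReal.ofReal_lt_top) (fun x _ => h1 x)
  refine h3.trans (le_of_eq ?_)
  rw [Measure.real, Real.volume_Icc, ENNReal.toReal_ofReal (by norm_num)]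
  ring

theorem QBT_nonneg {J : ℕ} {M : ℝ} {β : ℝ → ℝ} (h : SBM J M β) : 0 ≤ M :=
  (abs_nonneg _).trans (h.bd 0 (Nat.zero_le _) 0)

theorem QBT_b0 {J : ℕ} {M : ℝ} {β : ℝ → ℝ} (h : SBM J M β) (x : ℝ) : |β x| ≤ M := by
  have h1 := h.bd 0 (Nat.zero_le _) x
  rwa [iteratedDeriv_zero] at h1

theorem QBT_b1 {M : ℝ} {β : ℝ → ℝ} (h : SBM 1 M β) (x : ℝ) : |deriv β x| ≤ M := by
  have h1 := h.bd 1 le_rfl x
  rwa [iteratedDeriv_one] at h1

theorem QBT_z {w : ℝ} {β : ℝ → ℝ} (h : SB w β) {x : ℝ} (hx : ¬ |x| ≤ w) : β x = 0 := by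
  by_contra h0
  exact hx (h.2 x h0)

theorem QBT_dz {w : ℝ} {β : ℝ → ℝ} (h : SB w β) {x : ℝ} (hx : ¬ |x| ≤ w) : deriv β x = 0 := by
  have h1 : β =ᶠ[𝓝 x] fun _ => 0 := by
    have h2 : {y : ℝ | w < |y|} ∈ 𝓝 x := (isOpen_lt continuous_const continuous_abs).mem_nhds (not_le.1 hx)
    filter_upwards [h2] with y hy
    exact QBT_z h (not_le.2 hy)
  rw [h1.deriv_eq]
  simp

theorem QBT_exp (k x : ℝ) : ‖Complex.exp (-((k * x : ℝ) : ℂ) * Complex.I)‖ = 1 := by
  have h1 : (-((k * x : ℝ) : ℂ) * Complex.I) = ((-(k * x) : ℝ) : ℂ) * Complex.I := by push_cast; ring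
  rw [h1, Complex.norm_exp_ofReal_mul_I]

theorem QBT_hF {J : ℕ} {M : ℝ} {β : ℝ → ℝ} (h : SBM J M β) (k : ℝ) : ‖hF β k‖ ≤ M / 2 := by
  unfold hF
  apply QBT_int
  · intro x hx
    rw [QBT_z h.sb hx, Complex.ofReal_zero, zero_mul]
  · intro x
    rw [norm_mul, QBT_exp, mul_one, Complex.norm_real]
    exact QBT_b0 h x

theorem QBT_hFk {M : ℝ} {β : ℝ → ℝ} (h : SBM 1 M β) (k : ℝ) : |k| * ‖hF β k‖ ≤ M / 2 := by
  have hd : ∀ x, HasDerivAt (fun y : ℝ => (β y : ℂ)) ((deriv β x : ℝ) : ℂ) x := by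
    intro x
    exact ((h.sb.1.differentiable (by simp)) x).hasDerivAt.ofReal_comp
  have he : ∀ x : ℝ, HasDerivAt (fun y : ℝ => Complex.exp (-((k * y : ℝ) : ℂ) * Complex.I))
      (-(k : ℂ) * Complex.I * Complex.exp (-((k * x : ℝ) : ℂ) * Complex.I)) x := by
    intro x
    have h1 : HasDerivAt (fun y : ℝ => ((k * y : ℝ) : ℂ)) ((k * 1 : ℝ) : ℂ) x := ((hasDerivAt_id x).const_mul k).ofReal_comp
    have h2 := (h1.neg.mul_const Complex.I).cexp
    refine h2.congr_deriv ?_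
    simp only [Pi.neg_apply]
    push_cast
    ring
  have hcs : HasCompactSupport (fun y : ℝ => (β y : ℂ)) :=
    (BK4_supp h.sb).comp_left (g := fun y : ℝ => ((y : ℝ) : ℂ)) Complex.ofReal_zero
  have hcb : Continuous (fun y : ℝ => (β y : ℂ)) := Complex.continuous_ofReal.comp h.sb.1.continuous
  have hcd : Continuous (fun y : ℝ => ((deriv β y : ℝ) : ℂ)) :=
    Complex.continuous_ofReal.comp (h.sb.1.continuous_deriv (by simp))
  have hcsd : HasCompactSupport (fun y : ℝ => ((deriv β y : ℝ) : ℂ)) :=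
    ((BK4_supp h.sb).deriv).comp_left (g := fun y : ℝ => ((y : ℝ) : ℂ)) Complex.ofReal_zero
  have hce : Continuous (fun y : ℝ => Complex.exp (-((k * y : ℝ) : ℂ) * Complex.I)) := by fun_prop
  have h1 := integral_mul_deriv_eq_deriv_mul_of_integrable (u := fun y : ℝ => (β y : ℂ))
    (v := fun y : ℝ => Complex.exp (-((k * y : ℝ) : ℂ) * Complex.I)) (fun x _ => hd x) (fun x _ => he x)
    ((hcb.mul (continuous_const.mul hce)).integrable_of_hasCompactSupport hcs.mul_right)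
    ((hcd.mul hce).integrable_of_hasCompactSupport hcsd.mul_right)
    ((hcb.mul hce).integrable_of_hasCompactSupport hcs.mul_right)
  have h2 : ‖∫ x : ℝ, ((deriv β x : ℝ) : ℂ) * Complex.exp (-((k * x : ℝ) : ℂ) * Complex.I)‖ ≤ M / 2 := by
    apply QBT_int
    · intro x hx
      rw [QBT_dz h.sb hx, Complex.ofReal_zero, zero_mul]
    · intro x
      rw [norm_mul, QBT_exp, mul_one, Complex.norm_real]
      exact QBT_b1 h x
  have h3 : ∫ x : ℝ, (β x : ℂ) * (-(k : ℂ) * Complex.I * Complex.exp (-((k * x : ℝ) : ℂ) * Complex.I)) =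
      (-(k : ℂ) * Complex.I) * hF β k := by
    unfold hF
    rw [← integral_const_mul]
    refine integral_congr_ae (Eventually.of_forall fun x => ?_)
    simp only
    ring
  rw [h3] at h1
  have h4 : ‖(-(k : ℂ) * Complex.I) * hF β k‖ ≤ M / 2 := by
    rw [h1, norm_neg]
    exact h2
  rw [norm_mul, norm_mul, norm_neg, Complex.norm_I, mul_one, Complex.norm_real, Real.norm_eq_abs] at h4
  exact h4

theorem QBT_cont {w : ℝ} {β : ℝ → ℝ} (h : SB w β) : Continuous (hF β) := by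
  unfold hF
  apply continuous_of_dominated (bound := fun τ => |β τ|)
  · intro σ
    exact ((Complex.continuous_ofReal.comp h.1.continuous).mul (by fun_prop)).aestronglyMeasurable
  · intro σ
    refine Eventually.of_forall fun τ => ?_
    rw [norm_mul, QBT_exp, mul_one, Complex.norm_real, Real.norm_eq_abs]
  · exact (h.1.continuous.integrable_of_hasCompactSupport (BK4_supp h)).abs
  · refine Eventually.of_forall fun τ => ?_
    fun_prop

theorem QBT_main {M : ℝ} {β α : ℝ → ℝ} (hβ : SBM 1 M β) (hα : SBM 1 M α) (σ v : ℝ) (hv : v ≠ 0) :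
    (|v|⁻¹ * ‖bF (pr β α) (2 / v) σ‖) ^ 2 ≤ M ^ 4 * (1 + v ^ 2)⁻¹ := by
  have hM := QBT_nonneg hβ
  have hv0 : 0 < |v| := abs_pos.2 hv
  rw [BK4_prod, norm_mul]
  have h1 := QBT_hF hβ (2 / v)
  have h2 := QBT_hFk hβ (2 / v)
  have h3 := QBT_hF hα σ
  rw [abs_div, abs_of_pos (by norm_num : (0 : ℝ) < 2)] at h2
  set A := ‖hF β (2 / v)‖ with hA
  set B := ‖hF α σ‖ with hB
  have hA0 : 0 ≤ A := norm_nonneg _
  have hB0 : 0 ≤ B := norm_nonneg _
  have e0 : v ^ 2 = |v| ^ 2 := (sq_abs v).symm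
  rw [e0]
  set w := |v| with hw
  have h4 : w⁻¹ * A ≤ M / 4 := by
    have h5 : 2 / w * A = 2 * (w⁻¹ * A) := by rw [div_eq_mul_inv]; ring
    rw [h5] at h2
    linarith
  have h5 : w⁻¹ * A * w ≤ M / 2 := by
    have : w⁻¹ * A * w = A := by field_simp
    rw [this]
    exact h1
  have h6 : 0 ≤ w⁻¹ * A := by positivity
  rw [← div_eq_mul_inv, le_div_iff₀ (by positivity)]
  have e1 : w⁻¹ * (A * B) = (w⁻¹ * A) * B := by ring
  rw [e1, mul_pow]
  have h7 : (w⁻¹ * A) ^ 2 * (1 + w ^ 2) ≤ M ^ 2 := by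
    have h8 : (w⁻¹ * A) ^ 2 ≤ (M / 4) ^ 2 := pow_le_pow_left₀ h6 h4 2
    have h9 : (w⁻¹ * A * w) ^ 2 ≤ (M / 2) ^ 2 := pow_le_pow_left₀ (by positivity) h5 2
    nlinarith [sq_nonneg M]
  have h8 : B ^ 2 ≤ M ^ 2 := pow_le_pow_left₀ hB0 (by linarith) 2
  calc (w⁻¹ * A) ^ 2 * B ^ 2 * (1 + w ^ 2) = ((w⁻¹ * A) ^ 2 * (1 + w ^ 2)) * B ^ 2 := by ring
    _ ≤ M ^ 2 * M ^ 2 := mul_le_mul h7 h8 (sq_nonneg _) (sq_nonneg _)
    _ = M ^ 4 := by ring

theorem QBT_cb {M : ℝ} {β α : ℝ → ℝ} (hβ : SBM 1 M β) (hα : SBM 1 M α) : CBM (M ^ 2) (pr β α) := by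
  have hM := QBT_nonneg hβ
  refine ⟨⟨?_, ?_⟩, ?_, ?_, ?_⟩
  · unfold pr
    exact Complex.ofRealCLM.contDiff.comp ((hβ.sb.1.comp contDiff_fst).mul (hα.sb.1.comp contDiff_snd))
  · intro x τ h
    unfold pr at h
    have h1 : β x * α τ ≠ 0 := by
      intro h0
      exact h (by rw [h0, Complex.ofReal_zero])
    exact ⟨hβ.sb.2 x (left_ne_zero_of_mul h1), hα.sb.2 τ (right_ne_zero_of_mul h1)⟩
  · intro x τ
    unfold pr
    rw [Complex.norm_real, Real.norm_eq_abs, abs_mul, sq]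
    exact mul_le_mul (QBT_b0 hβ x) (QBT_b0 hα τ) (abs_nonneg _) hM
  · intro τ x
    have h1 : HasDerivAt (fun x => pr β α x τ) ((deriv β x * α τ : ℝ) : ℂ) x := by
      unfold pr
      exact ((((hβ.sb.1.differentiable (by simp)) x).hasDerivAt).mul_const (α τ)).ofReal_comp
    rw [h1.deriv, Complex.norm_real, Real.norm_eq_abs, abs_mul, sq]
    exact mul_le_mul (QBT_b1 hβ x) (QBT_b0 hα τ) (abs_nonneg _) hM
  · intro x τ
    have h1 : HasDerivAt (fun τ => pr β α x τ) ((β x * deriv α τ : ℝ) : ℂ) τ := by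
      unfold pr
      exact ((((hα.sb.1.differentiable (by simp)) τ).hasDerivAt).const_mul (β x)).ofReal_comp
    rw [h1.deriv, Complex.norm_real, Real.norm_eq_abs, abs_mul, sq]
    exact mul_le_mul (QBT_b0 hβ x) (QBT_b1 hα τ) (abs_nonneg _) hM

theorem QBT_proof : QBT_stmt := by
  refine ⟨1, le_rfl, fun β α M hβ hα => ⟨QBT_cb hβ hα, fun σ => ⟨?_, ?_, ?_, ?_⟩⟩⟩
  · have hI : Integrable (fun v : ℝ => M ^ 4 * (1 + v ^ 2)⁻¹) := integrable_inv_one_add_sq.const_mul _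
    refine hI.mono' ?_ ?_
    · have h1 : Measurable (fun v : ℝ => (|v|⁻¹ * ‖bF (pr β α) (2 / v) σ‖) ^ 2) := by
        simp only [BK4_prod]
        have h2 := (QBT_cont hβ.sb).measurable
        exact ((measurable_id.norm.inv.mul ((h2.comp (measurable_const.div measurable_id)).mul_const _).norm).pow_const 2)
      exact h1.aestronglyMeasurable
    · have h0 : ∀ᵐ v : ℝ, v ≠ 0 := by
        rw [ae_iff]
        simp
      filter_upwards [h0] with v hv
      rw [Real.norm_of_nonneg (sq_nonneg _)]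
      exact QBT_main hβ hα σ v hv
  · intro v hv
    rw [one_mul]
    exact QBT_main hβ hα σ v hv
  · intro s
    have h1 := QBT_hF hα s
    have hM := QBT_nonneg hα
    linarith
  · have hM := QBT_nonneg hβ
    have h1 : ‖∫ x : ℝ, ((β x ^ 2 : ℝ) : ℂ)‖ ≤ M ^ 2 / 2 := by
      apply QBT_int
      · intro x hx
        rw [QBT_z hβ.sb hx]
        simp
      · intro x
        rw [Complex.norm_real, Real.norm_eq_abs, abs_pow]
        exact pow_le_pow_left₀ (abs_nonneg _) (QBT_b0 hβ x) 2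
    rw [integral_complex_ofReal, Complex.norm_real, Real.norm_eq_abs] at h1
    have h2 := le_abs_self (∫ x : ℝ, β x ^ 2)
    nlinarith [sq_nonneg M]

end Pool.Agent.T1
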