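import Pool.Agent.helper72.T1.Pal

/-!
# MP_c8d30a, exponent 12: contact lemma
-/

set_option autoImplicit false
set_option linter.unusedSectionVars false

namespace T1C

open Equiv List NTH

variable {Ω : Type} [DecidableEq Ω] {p : Ω → Ω} {f : Ω} {s : St Ω}

/-- a gap has at most as many tokens as there are coloured tokens. -/
theorem GapS.len (hw : WF p s) {g r : Ω} {G : List Ω} (h : GapS p s g G r) : G.length ≤ NTS.D2 p s := by
  classical
  have hn := h.nodup hw
  have hside : (∀ t ∈ G, t ∈ s.1 ∧ p t ∈ s.1) ∨ (∀ t ∈ G, t ∈ s.2 ∧ p t ∈ s.2) := by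
    by_cases hg : g ∈ s.1
    · left
      intro t ht
      have h1 := (h.side hw ht).mpr hg
      rcases h.col t ht with h2 | h2
      · exact h2
      · exact absurd h2.1 (dis hw h1)
    · right
      intro t ht
      have h1 : t ∉ s.1 := fun h3 => hg ((h.side hw ht).mp h3)
      rcases h.col t ht with h2 | h2
      · exact absurd h2.1 h1
      · exact h2
  have hn0 := List.nodup_append.mp hw.nd
  rcases hside with h1 | h1
  · have h2 : G ⊆ s.1.filter (fun t => decide (p t ∈ s.1)) := by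
      intro t ht
      exact List.mem_filter.mpr ⟨(h1 t ht).1, by simpa using (h1 t ht).2⟩
    have h3 := (List.subperm_of_subset hn h2).length_le
    rw [← List.countP_eq_length_filter] at h3
    unfold NTS.D2
    refine h3.trans (le_trans (le_of_eq ?_) (Nat.le_add_right _ _))
    apply List.countP_congr
    intro t _
    simp
  · have h2 : G ⊆ s.2.filter (fun t => decide (p t ∈ s.2)) := by
      intro t ht
      exact List.mem_filter.mpr ⟨(h1 t ht).1, by simpa using (h1 t ht).2⟩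
    have h3 := (List.subperm_of_subset hn h2).length_le
    rw [← List.countP_eq_length_filter] at h3
    unfold NTS.D2
    refine h3.trans (le_trans (le_of_eq ?_) (Nat.le_add_left _ _))
    apply List.countP_congr
    intro t _
    simp

/-- near from the coloured tokens and their predecessors. -/
theorem cl_of (hw : WF p s) {r0 : Ω → Ω} {K : ℕ} {l : List Ω} (h : ∀ t, Cd p s t → t ∈ Wr p (NA.mu p s) r0 K l ∧
    NA.pd s t ∈ Wr p (NA.mu p s) r0 K l) : Cl p r0 K l s := by
  intro z hz h1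
  have sc1 : ∀ t, NA.sc s t ∈ s.1 ↔ t ∈ s.1 := fun t => NA.sc_mem_A hw.nd
  have pd1 : ∀ t, NA.pd s t ∈ s.1 ↔ t ∈ s.1 := by
    intro t
    have := sc1 (NA.pd s t)
    rw [NA.sc_pd] at this
    exact this.symm
  have cdof : ∀ t, t ∈ s.1 ++ s.2 → (t ∈ s.1 ↔ p t ∈ s.1) → Cd p s t := by
    intro t ht h2
    rcases cd_or hw ht with h3 | h3
    · exfalso
      have := h3.side hw
      rw [← h2] at this
      exact iff_not_self this
    · exact h3
  rcases h1 with h1 | h1
  · exact (h z (cdof z hz h1)).1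
  · have hm : NA.sc s z ∈ s.1 ++ s.2 := by
      rcases List.mem_append.mp hz with h2 | h2
      · exact List.mem_append_left _ ((sc1 z).mpr h2)
      · exact List.mem_append_right _ ((NA.sc_mem_B hw.nd).mpr h2)
    have h2 : Cd p s (NA.sc s z) := by
      apply cdof _ hm
      rw [sc1, h1, mu_eq, pd1]
    have h3 := (h _ h2).2
    rwa [NA.pd_sc] at h3

theorem pal_near (hw : WF p s) {g r : Ω} {G : List Ω} (h : GapS p s g G r) (hpal : G.reverse = G.map p) {r0 : Ω → Ω} {k : ℕ}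
    {L0 : List Ω} (hg : g ∈ Wr p (NA.mu p s) r0 k L0) : ∀ t ∈ G, t ∈ Wr p (NA.mu p s) r0 (k + G.length + 1) L0 ∧
      NA.pd s t ∈ Wr p (NA.mu p s) r0 (k + G.length + 1) L0 := by
  intro t ht
  have h1 := near_gap hw h hpal hg
  refine ⟨h1 t (List.mem_cons_of_mem _ ht), ?_⟩
  obtain ⟨j, hj, rfl⟩ := List.getElem_of_mem ht
  rw [← chain_get hw h j hj, NA.pd_sc]
  exact h1 _ (List.getElem_mem _)

/-- CONTACT LEMMA: two adjacent coloured tokens of different letters: good drop or all defects near to one token. -/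
theorem CL {K1 K2 K3 K : ℕ} (hSC : SC_stmt K1) (hPAR : PAR_stmt K2) (hN : NEST_stmt K3) (hK1 : K1 ≤ K) (hK2 : K2 ≤ K) (hK3 : K3 ≤ K)
    (hg : GP p f s) {t : Ω} (ht : Cd p s t) (ht' : Cd p s (NA.sc s t)) (hne : NA.sc s t ≠ p t) (r0 : Ω → Ω) :
    DG p K f s ∨ Low p r0 f (NTS.D2 p s + 6) 1 s := by
  by_cases hnd : DG p K f s
  · exact Or.inl hnd
  right
  have hw := hg.wf
  have hp := hw.inv
  have hpn := hw.ne
  obtain ⟨g, G, r, hG, hcG⟩ := GapS.ex hw hg.last hg.fA ht
  obtain ⟨d, hd⟩ : ∃ d, d = NA.sc s t := ⟨_, rfl⟩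
  have hdG : d ∈ G := hd ▸ hG.mem_nxt hw hcG ht'
  have hnG := hG.nodup hw
  have ne : d ≠ t := by
    obtain ⟨P, Q, e⟩ := List.append_of_mem hcG
    obtain ⟨Q', rfl⟩ := hG.nxt hw e hd.symm (hd ▸ ht')
    rw [e] at hnG
    have := (List.nodup_append.mp hnG).2.1
    rw [List.nodup_cons] at this
    rintro rfl
    exact this.1 List.mem_cons_self
  have ne' : d ≠ p t := hd ▸ hne
  -- a letter of the other colour
  obtain ⟨z0, hz0, sz0⟩ : ∃ z, Cd p s z ∧ (z ∈ s.1 ↔ t ∉ s.1) := by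
    by_cases h1 : t ∈ s.1
    · obtain ⟨o, ho⟩ := hg.blu
      exact ⟨o, Or.inr ho, ⟨fun h2 => absurd ho.1 (dis hw h2), fun h2 => absurd h1 h2⟩⟩
    · obtain ⟨o, ho⟩ := hg.red
      exact ⟨o, Or.inl ho, ⟨fun _ => h1, fun _ => ho.1⟩⟩
  have side : ∀ a ∈ G, (a ∈ s.1 ↔ t ∈ s.1) := fun a ha => (hG.side hw ha).trans (hG.side hw hcG).symm
  have X := fun {c d z g r : Ω} {G : List Ω} (hz : Cd p s z) (sz : z ∈ s.1 ↔ c ∉ s.1) (ne : d ≠ c) (ne' : d ≠ p c)
    (hG : GapS p s g G r) (hcG : c ∈ G) (hdG : d ∈ G) => H1 hSC hPAR hK1 hK2 hg hnd hz sz ne ne' hG hcG hdG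
  obtain ⟨ptG, pdG, -, -⟩ := X hz0 sz0 ne ne' hG hcG hdG
  have Z : ∀ z, Cd p s z → (z ∈ s.1 ↔ t ∉ s.1) → ∃ w, Zp p f s g r z w := fun z hz sz => (X hz sz ne ne' hG hcG hdG).2.2.2
  -- pairs in G are nested and closed
  have N1 : ∀ a b, a ∈ G → b ∈ G → b ≠ a → b ≠ p a → p b ∈ G ∧ (G.filter (lt2 p a b)).reverse = (G.filter (lt2 p a b)).map p := by
    intro a b ha hb e1 e2
    have := X hz0 (sz0.trans (not_congr (side a ha)).symm) e1 e2 hG ha hb
    exact ⟨this.2.1, this.2.2.1⟩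
  have clG : ∀ b ∈ G, p b ∈ G := by
    intro b hb
    by_cases e1 : b = t
    · rw [e1]; exact ptG
    by_cases e2 : b = p t
    · rw [e2, hp]; exact hcG
    exact (N1 t b hcG hb e1 e2).1
  have pal : G.reverse = G.map p := antipal hp hpn G.length G le_rfl hnG clG (fun a b ha hb e1 e2 => (N1 a b ha hb e1 e2).2)
  have base : g ∈ Wr p (NA.mu p s) r0 0 [p f, g] := by show g ∈ [p f, g]; simp
  have mono : ∀ {a b : ℕ} {x : Ω}, a ≤ b → x ∈ Wr p (NA.mu p s) r0 a [p f, g] → x ∈ Wr p (NA.mu p s) r0 b [p f, g] :=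
    fun hab hx => Wr_mono hab (fun x hx => hx) hx
  have lenG := hG.len hw
  have nearG : ∀ a ∈ G, a ∈ Wr p (NA.mu p s) r0 (NTS.D2 p s + 6) [p f, g] ∧ NA.pd s a ∈ Wr p (NA.mu p s) r0 (NTS.D2 p s + 6) [p f, g] := by
    intro a ha
    have h1 := pal_near hw hG pal base a ha
    exact ⟨mono (by omega) h1.1, mono (by omega) h1.2⟩
  refine ⟨[g], by simp, ?_⟩
  by_cases hB : ∃ z1 z2, Cd p s z1 ∧ Cd p s z2 ∧ (z1 ∈ s.1 ↔ t ∉ s.1) ∧ (z2 ∈ s.1 ↔ t ∉ s.1) ∧ z2 ≠ z1 ∧ z2 ≠ p z1
  · obtain ⟨z1, z2, c1, c2, sz1, sz2, n1, n2⟩ := hB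
    obtain ⟨w1, hw1, ⟨G1, r1, k1, k2⟩, -, -⟩ := Z z1 c1 sz1
    -- every other letter has a token in G1
    have inG1 : ∀ z, Cd p s z → (z ∈ s.1 ↔ t ∉ s.1) → ∃ w, (w = z ∨ w = p z) ∧ w ∈ G1 := by
      intro z hz sz
      obtain ⟨w, hw2, ⟨G2, r2, k3, k4⟩, -, -⟩ := Z z hz sz
      have e := (k3.uniq hw k1).1
      subst e
      exact ⟨w, hw2, (List.mem_filter.mp (List.mem_of_head? k4)).1⟩
    obtain ⟨v1, hv1, hv1G⟩ := inG1 z1 c1 sz1
    obtain ⟨v2, hv2, hv2G⟩ := inG1 z2 c2 sz2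
    have nv : v2 ≠ v1 ∧ v2 ≠ p v1 := by
      rcases hv1 with rfl | rfl <;> rcases hv2 with rfl | rfl
      · exact ⟨n1, n2⟩
      · exact ⟨fun e => n2 (by rw [← e, hp]), fun e => n1 (by have := congrArg p e; rwa [hp, hp] at this)⟩
      · exact ⟨n2, by rw [hp]; exact n1⟩
      · exact ⟨fun e => n1 (by have := congrArg p e; rwa [hp, hp] at this), fun e => n2 (by rw [hp] at e; rw [← e, hp])⟩
    have sG1 : ∀ a ∈ G1, (a ∈ s.1 ↔ t ∉ s.1) := by
      intro a ha
      have h1 := (k1.side hw ha).trans (k1.side hw hv1G).symm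
      have h2 := (cd_other hw c1 hv1).2
      exact h1.trans (h2.trans sz1)
    have X1 : ∀ a b e, a ∈ G1 → b ∈ G1 → b ≠ a → b ≠ p a → Cd p s e → (e ∈ s.1 ↔ t ∈ s.1) →
        p b ∈ G1 ∧ (G1.filter (lt2 p a b)).reverse = (G1.filter (lt2 p a b)).map p ∧ ∃ w, Zp p f s (p g) r1 e w := by
      intro a b e ha hb e1 e2 he se
      have h3 : e ∈ s.1 ↔ a ∉ s.1 := by
        rw [se, sG1 a ha]
        exact not_not.symm
      have := X he h3 e1 e2 k1 ha hb
      exact ⟨this.2.1, this.2.2.1, this.2.2.2⟩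
    have clG1 : ∀ b ∈ G1, p b ∈ G1 := by
      intro b hb
      by_cases e1 : b ≠ v1 ∧ b ≠ p v1
      · exact (X1 v1 b t hv1G hb e1.1 e1.2 ht Iff.rfl).1
      · have e2 : b = v1 ∨ b = p v1 := by
          by_contra h
          exact e1 ⟨fun h1 => h (Or.inl h1), fun h1 => h (Or.inr h1)⟩
        refine (X1 v2 b t hv2G hb ?_ ?_ ht Iff.rfl).1
        · rcases e2 with rfl | rfl
          · exact nv.1.symm
          · exact nv.2.symm
        · rcases e2 with rfl | rfl
          · intro e; apply nv.2; rw [e, hp]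
          · intro e; apply nv.1; have := congrArg p e; rw [hp, hp] at this; exact this.symm
    have pal1 : G1.reverse = G1.map p := antipal hp hpn G1.length G1 le_rfl (k1.nodup hw) clG1
      (fun a b ha hb e1 e2 => (X1 a b t ha hb e1 e2 ht Iff.rfl).2.1)
    have base1 : p g ∈ Wr p (NA.mu p s) r0 1 [p f, g] := Wr_p base
    have lenG1 := k1.len hw
    apply cl_of hw
    intro a ha
    by_cases sa : a ∈ s.1 ↔ t ∈ s.1
    · -- same colour
      obtain ⟨w, hw2, ⟨G2, r2, k3, k4⟩, -, -⟩ := (X1 v1 v2 a hv1G hv2G nv.1 nv.2 ha sa).2.2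
      rw [hp] at k3
      have e := (k3.uniq hw hG).1
      subst e
      have wG := (List.mem_filter.mp (List.mem_of_head? k4)).1
      apply nearG
      rcases hw2 with rfl | rfl
      · exact wG
      · have := clG _ wG; rwa [hp] at this
    · have sa' : a ∈ s.1 ↔ t ∉ s.1 := by
        constructor
        · exact fun h1 h2 => sa ⟨fun _ => h2, fun _ => h1⟩
        · intro h1; by_contra h2; exact sa ⟨fun h3 => absurd h3 h2, fun h3 => absurd h3 h1⟩
      obtain ⟨w, hw2, wG⟩ := inG1 a ha sa'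
      have aG : a ∈ G1 := by
        rcases hw2 with rfl | rfl
        · exact wG
        · have := clG1 _ wG; rwa [hp] at this
      have h1 := pal_near hw k1 pal1 base1 a aG
      exact ⟨mono (by omega) h1.1, mono (by omega) h1.2⟩
  · -- only one letter of the other colour
    have only : ∀ z, Cd p s z → (z ∈ s.1 ↔ t ∉ s.1) → z = z0 ∨ z = p z0 := by
      intro z hz sz
      by_contra h
      exact hB ⟨z0, z, hz0, hz, sz0, sz, fun e => h (Or.inl e), fun e => h (Or.inr e)⟩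
    obtain ⟨w, hZ⟩ := Z z0 hz0 sz0
    have same : ∀ e, Cd p s e → (e ∈ s.1 ↔ t ∈ s.1) → e ∈ G := by
      intro e he se
      by_contra h1
      have h2 : p e ∉ G := fun h => h1 (by have := clG _ h; rwa [hp] at this)
      rcases two_filter hpn hnG hcG ptG with h3 | h3
      · exact H2 hN hK3 hg hnd hz0 he sz0 se hG h3 h1 h2 hZ
      · have l1 : lt1 p t = lt1 p (p t) := by
          funext x
          unfold lt1
          rw [Bool.eq_iff_iff, decide_eq_true_iff, decide_eq_true_iff, hp]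
          exact or_comm
        rw [l1] at h3
        have h4 : G.filter (lt1 p (p t)) = [p t, p (p t)] := by rw [h3, hp]
        have st := ht.side hw
        exact H2 hN hK3 hg hnd hz0 he (by rw [st]; exact sz0) (by rw [st]; exact se) hG h4 h1 h2 hZ
    obtain ⟨hw1, ⟨G1, r1, k1, k2⟩, ⟨g2, G2, k3, k4⟩, -⟩ := hZ
    obtain ⟨cw, sw⟩ := cd_other hw hz0 hw1
    have w1 : w ∈ G1 := (List.mem_filter.mp (List.mem_of_head? k2)).1
    have w2 : p w ∈ G2 := (List.mem_filter.mp (List.mem_of_getLast? k4)).1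
    have allz : ∀ (g' r' : Ω) (G' : List Ω), GapS p s g' G' r' → (∃ x ∈ G', x = w ∨ x = p w) → G'.filter (lt1 p z0) = G' := by
      intro g' r' G' h1 h2
      obtain ⟨x, hx, hx2⟩ := h2
      apply List.filter_eq_self.mpr
      intro a ha
      have h3 := (h1.side hw ha).trans (h1.side hw hx).symm
      have h4 := (cd_other hw cw hx2).2
      have h5 := only a (h1.col a ha) (h3.trans (h4.trans (sw.trans sz0)))
      unfold lt1
      exact decide_eq_true_iff.mpr h5
    rw [allz _ _ _ k1 ⟨w, w1, Or.inl rfl⟩] at k2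
    rw [allz _ _ _ k3 ⟨p w, w2, Or.inr rfl⟩] at k4
    have e1 : NA.sc s (p g) = w := by
      obtain ⟨T, rfl⟩ : ∃ T, G1 = w :: T := by
        cases G1 with
        | nil => simp at k2
        | cons a T =>
          simp only [List.head?_cons, Option.some.injEq] at k2
          exact ⟨T, by rw [k2]⟩
      exact k1.sc hw (P := []) (Q := T ++ [r1]) (by simp)
    have e2 : NA.sc s (p w) = p r := by
      obtain ⟨T, rfl⟩ := List.getLast?_eq_some_iff.mp k4
      exact k3.sc hw (P := g2 :: T) (Q := []) (by simp)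
    -- the last token of `g :: G`
    have hGne : G ≠ [] := List.ne_nil_of_mem hcG
    obtain ⟨M, u, rfl⟩ : ∃ M u, G = M ++ [u] := by
      rcases List.eq_nil_or_concat G with h | ⟨M, u, h⟩
      · exact absurd h hGne
      · exact ⟨M, u, by rw [h]; simp⟩
    have e3 : NA.sc s u = r := hG.sc hw (P := g :: M) (Q := []) (by simp)
    have hu := (pal_near hw hG pal base u (by simp)).1
    have n1 : NA.mu p s u = p w := by
      rw [mu_eq, e3]; exact NA.pd_of_sc e2
    have n2 : p w ∈ Wr p (NA.mu p s) r0 (0 + (M ++ [u]).length + 1 + 1) [p f, g] := by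
      rw [← n1]; exact Wr_q hu
    have n3 : w ∈ Wr p (NA.mu p s) r0 (0 + (M ++ [u]).length + 1 + 1 + 1) [p f, g] := by
      have := Wr_p n2
      rwa [hp] at this
    have n4 : p g ∈ Wr p (NA.mu p s) r0 1 [p f, g] := Wr_p base
    have n5 : NA.pd s (p w) ∈ Wr p (NA.mu p s) r0 2 [p f, g] := by
      have h1 : NA.mu p s (p g) = NA.pd s (p w) := by rw [mu_eq, e1]
      rw [← h1]; exact Wr_q n4
    have n6 : NA.pd s w = p g := NA.pd_of_sc e1
    apply cl_of hw
    intro a ha
    by_cases sa : a ∈ s.1 ↔ t ∈ s.1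
    · exact nearG a (same a ha sa)
    · have sa' : a ∈ s.1 ↔ t ∉ s.1 := by
        constructor
        · exact fun h1 h2 => sa ⟨fun _ => h2, fun _ => h1⟩
        · intro h1; by_contra h2; exact sa ⟨fun h3 => absurd h3 h2, fun h3 => absurd h3 h1⟩
      have h1 : a = w ∨ a = p w := by
        rcases only a ha sa' with rfl | rfl <;> rcases hw1 with rfl | rfl
        · exact Or.inl rfl
        · exact Or.inr (hp _).symm
        · exact Or.inr rfl
        · exact Or.inl rfl
      rcases h1 with rfl | rfl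
      · exact ⟨mono (by omega) n3, by rw [n6]; exact mono (by omega) n4⟩
      · exact ⟨mono (by omega) n2, mono (by omega) n5⟩

end T1C
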