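import Pool.Agent.helper72.T1.Sub

/-!
# MP_c8d30a, exponent 12: contact lemma, part 3: the table statements and their consequences in the full state
-/

set_option autoImplicit false
set_option linter.unusedSectionVars false

namespace T1C

open Equiv List NTH

variable {Ω : Type} [DecidableEq Ω] {p : Ω → Ω} {f : Ω}

/-- the coloured letters are `c`, `d` (one colour) and `z` (the other colour). -/
structure Tri (p : Ω → Ω) (f : Ω) (s : St Ω) (c d z : Ω) : Prop where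
  gp : GP p f s
  cc : Cd p s c
  cd : Cd p s d
  cz : Cd p s z
  sd : d ∈ s.1 ↔ c ∈ s.1
  sz : z ∈ s.1 ↔ c ∉ s.1
  ne : d ≠ c
  ne' : d ≠ p c
  only : ∀ t, Cd p s t → t ∈ tri p c d z

/-- fully parallel nest (for `sc c = d`, `sc (p d) = p c`). -/
def Fpn (p : Ω → Ω) (f : Ω) (s : St Ω) (c d z : Ω) : Prop :=
  NA.sc s d = p d ∧ Mx p s (NA.pd s c) ∧ Mx p s (NA.sc s (p c)) ∧
    ∃ w, (w = z ∨ w = p z) ∧ NA.pd s w = p (NA.pd s c) ∧ NA.sc s (p w) = p (NA.sc s (p c)) ∧ Lin p f s w (p w)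

def SC_stmt (K : ℕ) : Prop := ∀ (Ω : Type) [DecidableEq Ω] (p : Ω → Ω) (f : Ω) (s : St Ω) (c d z : Ω), Tri p f s c d z →
  NA.sc s c = d → DG p K f s ∨ NA.sc s (p d) = p c

def PAR_stmt (K : ℕ) : Prop := ∀ (Ω : Type) [DecidableEq Ω] (p : Ω → Ω) (f : Ω) (s : St Ω) (c d z : Ω), Tri p f s c d z →
  NA.sc s c = d → NA.sc s (p d) = p c → DG p K f s ∨ Fpn p f s c d z ∨ Fpn p f s (p d) (p c) z

def NEST_stmt (K : ℕ) : Prop := ∀ (Ω : Type) [DecidableEq Ω] (p : Ω → Ω) (f : Ω) (s : St Ω) (c e z : Ω), Tri p f s c e z →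
  NA.sc s c = p c → Mx p s (NA.pd s c) → Mx p s (NA.sc s (p c)) → NA.pd s z = p (NA.pd s c) →
  NA.sc s (p z) = p (NA.sc s (p c)) → Lin p f s z (p z) → DG p K f s

/-- the letter of a token. -/
def lt1 (p : Ω → Ω) (c t : Ω) : Bool := decide (t = c ∨ t = p c)

def lt2 (p : Ω → Ω) (c d t : Ω) : Bool := decide (t = c ∨ t = p c ∨ t = d ∨ t = p d)

/-- the position of a letter of the other colour relative to the gap `g | r`. -/
def Zp (p : Ω → Ω) (f : Ω) (s : St Ω) (g r z w : Ω) : Prop :=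
  (w = z ∨ w = p z) ∧ (∃ G1 r1, GapS p s (p g) G1 r1 ∧ (G1.filter (lt1 p z)).head? = some w) ∧
    (∃ g2 G2, GapS p s g2 G2 (p r) ∧ (G2.filter (lt1 p z)).getLast? = some (p w)) ∧ Lin p f s w (p w)

/-- adjacent tokens of different letters. -/
theorem adj_diff1 (hp : ∀ t : Ω, p (p t) = t) : ∀ (L : List Ω) (c d : Ω), d ∈ L → d ≠ c → d ≠ p c →
    ∃ P a b Q, c :: L = P ++ a :: b :: Q ∧ b ≠ a ∧ b ≠ p a := by
  intro L
  induction L with
  | nil => intro c d h; simp at h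
  | cons x L ih =>
    intro c d hd h1 h2
    by_cases hx : x ≠ c ∧ x ≠ p c
    · exact ⟨[], c, x, L, rfl, hx.1, hx.2⟩
    · have hx' : x = c ∨ x = p c := by (first | grind | tauto)
      have k1 : d ≠ x := by rcases hx' with rfl | rfl <;> assumption
      have k2 : d ≠ p x := by
        rcases hx' with rfl | rfl
        · exact h2
        · rw [hp]; exact h1
      rcases List.mem_cons.mp hd with h3 | h3
      · exact absurd h3 k1
      · obtain ⟨P, a, b, Q, e, e1, e2⟩ := ih x d h3 k1 k2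
        exact ⟨c :: P, a, b, Q, by rw [e]; rfl, e1, e2⟩

theorem adj_diff (hp : ∀ t : Ω, p (p t) = t) {L : List Ω} {c d : Ω} (hc : c ∈ L) (hd : d ∈ L) (h1 : d ≠ c) (h2 : d ≠ p c) :
    ∃ P a b Q, L = P ++ a :: b :: Q ∧ b ≠ a ∧ b ≠ p a := by
  obtain ⟨X, Y, rfl⟩ := List.append_of_mem hc
  rcases List.mem_append.mp hd with h3 | h3
  · obtain ⟨X1, X2, rfl⟩ := List.append_of_mem h3
    obtain ⟨P, a, b, Q, e, e1, e2⟩ := adj_diff1 hp (X2 ++ c :: Y) d c (by simp) h1.symm (fun h => h2 (by rw [h, hp]))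
    exact ⟨X1 ++ P, a, b, Q, by rw [List.append_assoc, List.cons_append, e]; simp, e1, e2⟩
  · rcases List.mem_cons.mp h3 with h3 | h3
    · exact absurd h3 h1
    · obtain ⟨P, a, b, Q, e, e1, e2⟩ := adj_diff1 hp Y c d h3 h1 h2
      exact ⟨X ++ P, a, b, Q, by rw [e]; simp, e1, e2⟩

section

variable {s : St Ω}

theorem GapS.nxt (hw : WF p s) {g r a b : Ω} {G P Q : List Ω} (h : GapS p s g G r) (e : G = P ++ a :: Q) (hs : NA.sc s a = b)
    (hb : Cd p s b) : ∃ Q', Q = b :: Q' := by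
  cases Q with
  | nil =>
    exfalso
    have := h.sc hw (P := g :: P) (a := a) (b := r) (Q := []) (by rw [e]; simp)
    rw [hs] at this
    exact h.mr.not hw (this ▸ hb)
  | cons u Q =>
    have := h.sc hw (P := g :: P) (a := a) (b := u) (Q := Q ++ [r]) (by rw [e]; simp)
    rw [hs] at this
    exact ⟨Q, by rw [this]⟩

theorem GapS.fin (hw : WF p s) {g r a : Ω} {G P Q : List Ω} (h : GapS p s g G r) (e : G = P ++ a :: Q) (hs : Mx p s (NA.sc s a)) :
    Q = [] := by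
  cases Q with
  | nil => rfl
  | cons u Q =>
    exfalso
    have := h.sc hw (P := g :: P) (a := a) (b := u) (Q := Q ++ [r]) (by rw [e]; simp)
    rw [this] at hs
    exact hs.not hw (h.col u (by rw [e]; simp))

theorem GapS.nodup (hw : WF p s) {g r : Ω} {G : List Ω} (h : GapS p s g G r) : G.Nodup := by
  obtain ⟨l, R, -, hn, h1, -⟩ := h.word hw
  exact (List.nodup_append.mp (List.nodup_cons.mp (h1.nodup_iff.mp hn)).2).1

/-- all tokens of a gap are on the side of `g`. -/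
theorem GapS.side (hw : WF p s) {g r t : Ω} {G : List Ω} (h : GapS p s g G r) (ht : t ∈ G) : t ∈ s.1 ↔ g ∈ s.1 := by
  obtain ⟨l, R, -, -, h1, -, -, -, h2⟩ := h.word hw
  exact h2 t (h1.mem_iff.mpr (List.mem_cons_of_mem _ (List.mem_append_left _ ht)))

theorem Tri.fil (hg : GP p f s) {c d z : Ω} (hc : Cd p s c) (hd : Cd p s d) (hz : Cd p s z) (sd : d ∈ s.1 ↔ c ∈ s.1)
    (sz : z ∈ s.1 ↔ c ∉ s.1) (ne : d ≠ c) (ne' : d ≠ p c) : Tri p f (NA.fil (kp p s (tri p c d z)) s) c d z := by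
  have hw := hg.wf
  have hq := kp_p (p := p) (s := s) hw (c := c) (d := d) (z := z)
  have hm : ∀ t, Mx p s t → kp p s (tri p c d z) t = true := fun t ht => kp_iff.mpr (Or.inl ht)
  have kc : kp p s (tri p c d z) c = true := kp_iff.mpr (Or.inr (by simp [tri]))
  have kd : kp p s (tri p c d z) d = true := kp_iff.mpr (Or.inr (by simp [tri]))
  have kz : kp p s (tri p c d z) z = true := kp_iff.mpr (Or.inr (by simp [tri]))
  have m1 : ∀ t, kp p s (tri p c d z) t = true → (t ∈ (NA.fil (kp p s (tri p c d z)) s).1 ↔ t ∈ s.1) := by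
    intro t ht
    exact ⟨fun h => (List.mem_filter.mp h).1, fun h => List.mem_filter.mpr ⟨h, ht⟩⟩
  refine ⟨gp_fil hg hq hm hc hz kc kz sz, (cd_fil hq).mpr ⟨hc, kc⟩, (cd_fil hq).mpr ⟨hd, kd⟩, (cd_fil hq).mpr ⟨hz, kz⟩,
    by rw [m1 d kd, m1 c kc]; exact sd, by rw [m1 z kz, m1 c kc]; exact sz, ne, ne', ?_⟩
  intro t ht
  obtain ⟨h1, h2⟩ := (cd_fil hq).mp ht
  rcases kp_iff.mp h2 with h3 | h3
  · exact absurd h1 (h3.not hw)
  · exact h3

/-- change of the names. -/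
theorem Tri.swap {c d z a b : Ω} (h : Tri p f s c d z) (ha : a = c ∨ a = p c ∨ a = d ∨ a = p d) (hb : b = c ∨ b = p c ∨ b = d ∨ b = p d)
    (h1 : b ≠ a) (h2 : b ≠ p a) : Tri p f s a b z := by
  have hw := h.gp.wf
  have hp := hw.inv
  have cc' := h.cc.sym hw
  have cd' := h.cd.sym hw
  have sc1 := h.cc.side hw
  have sd1 := h.cd.side hw
  have k1 : Cd p s a ∧ (a ∈ s.1 ↔ c ∈ s.1) := by
    rcases ha with rfl | rfl | rfl | rfl
    · exact ⟨h.cc, Iff.rfl⟩
    · exact ⟨cc', sc1⟩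
    · exact ⟨h.cd, h.sd⟩
    · exact ⟨cd', sd1.trans h.sd⟩
  have k2 : Cd p s b ∧ (b ∈ s.1 ↔ c ∈ s.1) := by
    rcases hb with rfl | rfl | rfl | rfl
    · exact ⟨h.cc, Iff.rfl⟩
    · exact ⟨cc', sc1⟩
    · exact ⟨h.cd, h.sd⟩
    · exact ⟨cd', sd1.trans h.sd⟩
  refine ⟨h.gp, k1.1, k2.1, h.cz, k2.2.trans k1.2.symm, by rw [k1.2]; exact h.sz, h1, h2, ?_⟩
  intro t ht
  have h3 := mem_tri.mp (h.only t ht)
  rw [mem_tri]
  have ne2 := h.ne
  have ne3 := h.ne'
  rcases ha with rfl | rfl | rfl | rfl <;> rcases hb with rfl | rfl | rfl | rfl <;> simp only [hp] at * <;> (first | grind | tauto)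

theorem filter_eq_lt2 {G : List Ω} {c d z : Ω} (h1 : ∀ t ∈ G, Cd p s t) (hw : WF p s) (h2 : ∀ t ∈ G, t ≠ z ∧ t ≠ p z) :
    G.filter (kp p s (tri p c d z)) = G.filter (lt2 p c d) := by
  apply List.filter_congr
  intro t ht
  rw [Bool.eq_iff_iff, kp_iff, mem_tri]
  unfold lt2
  rw [decide_eq_true_iff]
  have h3 := h1 t ht
  have h4 : ¬ Mx p s t := fun h => h.not hw h3
  have h5 := h2 t ht
  (first | grind | tauto)

theorem filter_eq_lt1 {G : List Ω} {c d z : Ω} (h1 : ∀ t ∈ G, Cd p s t) (hw : WF p s)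
    (h2 : ∀ t ∈ G, t ≠ c ∧ t ≠ p c ∧ t ≠ d ∧ t ≠ p d) : G.filter (kp p s (tri p c d z)) = G.filter (lt1 p z) := by
  apply List.filter_congr
  intro t ht
  rw [Bool.eq_iff_iff, kp_iff, mem_tri]
  unfold lt1
  rw [decide_eq_true_iff]
  have h3 := h1 t ht
  have h4 : ¬ Mx p s t := fun h => h.not hw h3
  have h5 := h2 t ht
  (first | grind | tauto)

end

end T1C
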