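import Pool.Agent.helper72.T1.Tab

/-!
# MP_c8d30a, exponent 12: contact lemma, part 8: the nest table
-/

set_option autoImplicit false
set_option linter.unusedSectionVars false

namespace T1C

open Equiv List NTH
open Pool.Agent.helper32.RH (fp_mid fp_lst rot_split)
open Pool.Agent.helper55.BG (Dr NestQ)

variable {Ω : Type} [DecidableEq Ω] {p : Ω → Ω} {f : Ω}

section shapes

variable {b : Bool} {c d z g r h h' : Ω} {b0 b1 b2 b3 b4 b5 b6 : List Ω}

theorem NEST_U0 (he : En p f b h h')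
    (hw : WF p (mk b (b0 ++ (d :: (b1 ++ (p d :: (b2 ++ (g :: (c :: (p c :: (r :: (b3 ++ ([h]))))))))))) (b4 ++ (p g :: (z :: (b5 ++ (p z :: (p r :: (b6 ++ ([h']))))))))))
    (hx : ∀ t, t ∈ b0 ∨ t ∈ b1 ∨ t ∈ b2 ∨ t ∈ b3 → p t ∈ b4 ++ (p g :: (z :: (b5 ++ (p z :: (p r :: (b6 ++ ([h']))))))))
    (hy : ∀ t, t ∈ b4 ∨ t ∈ b5 ∨ t ∈ b6 → p t ∈ b0 ++ (d :: (b1 ++ (p d :: (b2 ++ (g :: (c :: (p c :: (r :: (b3 ++ ([h]))))))))))) :
    Dr p 6 f (mk b (b0 ++ (d :: (b1 ++ (p d :: (b2 ++ (g :: (c :: (p c :: (r :: (b3 ++ ([h]))))))))))) (b4 ++ (p g :: (z :: (b5 ++ (p z :: (p r :: (b6 ++ ([h']))))))))) := by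
  rcases he with ⟨rfl, rfl, rfl⟩ | ⟨rfl, rfl, rfl⟩
  · exact Pool.Agent.helper55.BG.NEST_A0 hw hx hy
  · exact Pool.Agent.helper55.BG.NEST_B0 hw hy hx

theorem NEST_U1 (he : En p f b h h')
    (hw : WF p (mk b (b0 ++ (d :: (b1 ++ (g :: (c :: (p c :: (r :: (b2 ++ (p d :: (b3 ++ ([h]))))))))))) (b4 ++ (p g :: (z :: (b5 ++ (p z :: (p r :: (b6 ++ ([h']))))))))))
    (hx : ∀ t, t ∈ b0 ∨ t ∈ b1 ∨ t ∈ b2 ∨ t ∈ b3 → p t ∈ b4 ++ (p g :: (z :: (b5 ++ (p z :: (p r :: (b6 ++ ([h']))))))))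
    (hy : ∀ t, t ∈ b4 ∨ t ∈ b5 ∨ t ∈ b6 → p t ∈ b0 ++ (d :: (b1 ++ (g :: (c :: (p c :: (r :: (b2 ++ (p d :: (b3 ++ ([h]))))))))))) :
    Dr p 6 f (mk b (b0 ++ (d :: (b1 ++ (g :: (c :: (p c :: (r :: (b2 ++ (p d :: (b3 ++ ([h]))))))))))) (b4 ++ (p g :: (z :: (b5 ++ (p z :: (p r :: (b6 ++ ([h']))))))))) := by
  rcases he with ⟨rfl, rfl, rfl⟩ | ⟨rfl, rfl, rfl⟩
  · exact Pool.Agent.helper55.BG.NEST_A1 hw hx hy
  · exact Pool.Agent.helper55.BG.NEST_B1 hw hy hx

theorem NEST_U2 (he : En p f b h h')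
    (hw : WF p (mk b (b0 ++ (g :: (c :: (p c :: (r :: (b1 ++ (d :: (b2 ++ (p d :: (b3 ++ ([h]))))))))))) (b4 ++ (p g :: (z :: (b5 ++ (p z :: (p r :: (b6 ++ ([h']))))))))))
    (hx : ∀ t, t ∈ b0 ∨ t ∈ b1 ∨ t ∈ b2 ∨ t ∈ b3 → p t ∈ b4 ++ (p g :: (z :: (b5 ++ (p z :: (p r :: (b6 ++ ([h']))))))))
    (hy : ∀ t, t ∈ b4 ∨ t ∈ b5 ∨ t ∈ b6 → p t ∈ b0 ++ (g :: (c :: (p c :: (r :: (b1 ++ (d :: (b2 ++ (p d :: (b3 ++ ([h]))))))))))) :
    Dr p 6 f (mk b (b0 ++ (g :: (c :: (p c :: (r :: (b1 ++ (d :: (b2 ++ (p d :: (b3 ++ ([h]))))))))))) (b4 ++ (p g :: (z :: (b5 ++ (p z :: (p r :: (b6 ++ ([h']))))))))) := by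
  rcases he with ⟨rfl, rfl, rfl⟩ | ⟨rfl, rfl, rfl⟩
  · exact Pool.Agent.helper55.BG.NEST_A2 hw hx hy
  · exact Pool.Agent.helper55.BG.NEST_B2 hw hy hx

theorem NEST_U6 (he : En p f b h h')
    (hw : WF p (mk b (c :: (p c :: (g :: (b0 ++ (d :: (b1 ++ (p d :: (b2 ++ ([h]))))))))) (z :: (b3 ++ (p z :: (p g :: (b4 ++ ([h']))))))))
    (hx : ∀ t, t ∈ b0 ∨ t ∈ b1 ∨ t ∈ b2 → p t ∈ z :: (b3 ++ (p z :: (p g :: (b4 ++ ([h']))))))
    (hy : ∀ t, t ∈ b3 ∨ t ∈ b4 → p t ∈ c :: (p c :: (g :: (b0 ++ (d :: (b1 ++ (p d :: (b2 ++ ([h]))))))))) :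
    Dr p 6 f (mk b (c :: (p c :: (g :: (b0 ++ (d :: (b1 ++ (p d :: (b2 ++ ([h]))))))))) (z :: (b3 ++ (p z :: (p g :: (b4 ++ ([h']))))))) := by
  rcases he with ⟨rfl, rfl, rfl⟩ | ⟨rfl, rfl, rfl⟩
  · exact Pool.Agent.helper55.BG.NEST_A6 hw hx hy
  · exact Pool.Agent.helper55.BG.NEST_B6 hw hy hx

theorem NEST_U8 (he : En p f b h h')
    (hw : WF p (mk b (b0 ++ (d :: (b1 ++ (p d :: (b2 ++ (g :: (c :: (p c :: ([h]))))))))) (b3 ++ (p g :: (z :: (b4 ++ (p z :: ([h']))))))))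
    (hx : ∀ t, t ∈ b0 ∨ t ∈ b1 ∨ t ∈ b2 → p t ∈ b3 ++ (p g :: (z :: (b4 ++ (p z :: ([h']))))))
    (hy : ∀ t, t ∈ b3 ∨ t ∈ b4 → p t ∈ b0 ++ (d :: (b1 ++ (p d :: (b2 ++ (g :: (c :: (p c :: ([h]))))))))) :
    Dr p 6 f (mk b (b0 ++ (d :: (b1 ++ (p d :: (b2 ++ (g :: (c :: (p c :: ([h]))))))))) (b3 ++ (p g :: (z :: (b4 ++ (p z :: ([h']))))))) := by
  rcases he with ⟨rfl, rfl, rfl⟩ | ⟨rfl, rfl, rfl⟩
  · exact Pool.Agent.helper55.BG.NEST_A8 hw hx hy
  · exact Pool.Agent.helper55.BG.NEST_B8 hw hy hx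

end shapes

theorem sub_split {l : List Ω} {a b : Ω} (h : [a, b] <+ l) : ∃ P Q R, l = P ++ a :: (Q ++ b :: R) := by
  obtain ⟨l1, l2, rfl, h1, h2⟩ := List.cons_sublist_iff.mp h
  obtain ⟨P, Q, rfl⟩ := List.append_of_mem h1
  obtain ⟨Q', R, rfl⟩ := List.append_of_mem (List.singleton_sublist.mp h2)
  exact ⟨P, Q ++ Q', R, by simp⟩

theorem mem_before {l : List Ω} {h u z : Ω} (hn : (l ++ [h]).Nodup) (hu : u ∈ l) (hs : (l ++ [h]).formPerm u = z) (hz : z ∈ l)
    {P R : List Ω} (e : l = P ++ z :: R) : ∃ P', P = P' ++ [u] := by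
  obtain ⟨P1, Q1, e1⟩ := split_adj hn hu hs hz
  have hnl := (List.nodup_append.mp hn).1
  have e2 : P ++ z :: R = (P1 ++ [u]) ++ z :: Q1 := by rw [← e, e1]; simp
  refine ⟨P1, ?_⟩
  have k1 : z ∉ P := by
    rw [e] at hnl
    exact fun h => (List.nodup_append.mp hnl).2.2 z h z List.mem_cons_self rfl
  have k2 : z ∉ P1 ++ [u] := by
    have : l = (P1 ++ [u]) ++ z :: Q1 := by rw [e1]; simp
    rw [this] at hnl
    exact fun h => (List.nodup_append.mp hnl).2.2 z h z List.mem_cons_self rfl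
  rcases List.append_eq_append_iff.mp e2 with ⟨W, h1, h2⟩ | ⟨W, h1, h2⟩
  · cases W with
    | nil => rw [List.append_nil] at h1; exact h1.symm
    | cons w W =>
      exfalso
      rw [List.cons_append, List.cons.injEq] at h2
      apply k2
      rw [h1, ← h2.1]; simp
  · cases W with
    | nil => rw [List.append_nil] at h1; exact h1
    | cons w W =>
      exfalso
      rw [List.cons_append, List.cons.injEq] at h2
      apply k1
      rw [h1, ← h2.1]; simp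

/-- the neighbours in the second word. -/
theorem v_shape {V P' Q' R' : List Ω} {z z' h' u v : Ω} (hn : (V ++ [h']).Nodup) (hV : V = P' ++ z :: (Q' ++ z' :: R'))
    (hu : u ∈ V ++ [h']) (hu1 : (V ++ [h']).formPerm u = z) (hv : v ∈ V ++ [h']) (hv1 : (V ++ [h']).formPerm z' = v) :
    ((u = h' ∧ P' = []) ∨ ∃ P1, P' = P1 ++ [u]) ∧ ((v = h' ∧ R' = []) ∨ ∃ R1, R' = v :: R1) := by
  have hzV : z ∈ V := by rw [hV]; simp
  have hz'V : z' ∈ V := by rw [hV]; simp
  constructor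
  · by_cases h1 : u ∈ V
    · exact Or.inr (mem_before hn h1 hu1 hzV hV)
    · left
      have h2 : u = h' := by
        rcases List.mem_append.mp hu with h3 | h3
        · exact absurd h3 h1
        · exact List.mem_singleton.mp h3
      refine ⟨h2, ?_⟩
      subst h2
      cases P' with
      | nil => rfl
      | cons x P' =>
        exfalso
        have e : V ++ [u] = x :: ((P' ++ z :: (Q' ++ z' :: R')) ++ [u]) := by rw [hV]; simp
        rw [e] at hu1 hn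
        rw [fp_lst hn] at hu1
        rw [hu1] at hn
        exact (List.nodup_cons.mp hn).1 (by simp)
  · cases R' with
    | nil =>
      left
      have e : V ++ [h'] = (P' ++ z :: Q') ++ z' :: h' :: [] := by rw [hV]; simp
      rw [e] at hv1 hn
      rw [fp_mid hn] at hv1
      exact ⟨hv1.symm, rfl⟩
    | cons x R' =>
      right
      have e : V ++ [h'] = (P' ++ z :: Q') ++ z' :: x :: (R' ++ [h']) := by rw [hV]; simp
      rw [e] at hv1 hn
      rw [fp_mid hn] at hv1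
      exact ⟨R', by rw [hv1]⟩

section outs

variable {X Y Z Q : List Ω} {d d' g c c' r t : Ω}

theorem out0 (hn : (X ++ (d :: (Y ++ (d' :: (Z ++ (g :: (c :: (c' :: (r :: Q))))))))).Nodup) (ht : t ∈ X ∨ t ∈ Y ∨ t ∈ Z ∨ t ∈ Q) :
    (t ≠ d ∧ t ≠ d' ∧ t ≠ c ∧ t ≠ c') ∧ t ∈ (X ++ (d :: (Y ++ (d' :: (Z ++ (g :: (c :: (c' :: (r :: Q))))))))) := by grind

theorem out1 (hn : (X ++ (d :: (Y ++ (g :: (c :: (c' :: (r :: (Z ++ (d' :: Q))))))))).Nodup) (ht : t ∈ X ∨ t ∈ Y ∨ t ∈ Z ∨ t ∈ Q) :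
    (t ≠ d ∧ t ≠ d' ∧ t ≠ c ∧ t ≠ c') ∧ t ∈ (X ++ (d :: (Y ++ (g :: (c :: (c' :: (r :: (Z ++ (d' :: Q))))))))) := by grind

theorem out2 (hn : (X ++ (g :: (c :: (c' :: (r :: (Y ++ (d :: (Z ++ (d' :: Q))))))))).Nodup) (ht : t ∈ X ∨ t ∈ Y ∨ t ∈ Z ∨ t ∈ Q) :
    (t ≠ d ∧ t ≠ d' ∧ t ≠ c ∧ t ≠ c') ∧ t ∈ (X ++ (g :: (c :: (c' :: (r :: (Y ++ (d :: (Z ++ (d' :: Q))))))))) := by grind

theorem out6 (hn : (c :: (c' :: (g :: (X ++ (d :: (Y ++ (d' :: Z))))))).Nodup) (ht : t ∈ X ∨ t ∈ Y ∨ t ∈ Z) :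
    (t ≠ d ∧ t ≠ d' ∧ t ≠ c ∧ t ≠ c') ∧ t ∈ (c :: (c' :: (g :: (X ++ (d :: (Y ++ (d' :: Z))))))) := by grind

theorem out8 {h : Ω} (hn : (X ++ (d :: (Y ++ (d' :: (Z ++ (g :: (c :: (c' :: ([h]))))))))).Nodup) (ht : t ∈ X ∨ t ∈ Y ∨ t ∈ Z) :
    (t ≠ d ∧ t ≠ d' ∧ t ≠ c ∧ t ≠ c') ∧ t ∈ (X ++ (d :: (Y ++ (d' :: (Z ++ (g :: (c :: (c' :: ([h]))))))))) := by grind

theorem outv {z z' : Ω} (hn : (X ++ (g :: (z :: (Y ++ (z' :: (r :: Z)))))).Nodup) (ht : t ∈ X ∨ t ∈ Y ∨ t ∈ Z) :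
    (t ≠ z ∧ t ≠ z') ∧ t ∈ (X ++ (g :: (z :: (Y ++ (z' :: (r :: Z)))))) := by grind

theorem outv6 {z z' : Ω} (hn : (z :: (X ++ (z' :: (g :: Y)))).Nodup) (ht : t ∈ X ∨ t ∈ Y) :
    (t ≠ z ∧ t ≠ z') ∧ t ∈ (z :: (X ++ (z' :: (g :: Y)))) := by grind

theorem outv8 {z z' h : Ω} (hn : (X ++ (g :: (z :: (Y ++ (z' :: ([h])))))).Nodup) (ht : t ∈ X ∨ t ∈ Y) :
    (t ≠ z ∧ t ≠ z') ∧ t ∈ (X ++ (g :: (z :: (Y ++ (z' :: ([h])))))) := by grind

end outs

theorem in3 {X Y Z : List Ω} {h t : Ω} (ht : t ∈ X ∨ t ∈ Y ∨ t ∈ Z) : t ∈ X ∨ t ∈ Y ∨ t ∈ Z ++ [h] := by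
  rcases ht with h3 | h3 | h3
  · exact Or.inl h3
  · exact Or.inr (Or.inl h3)
  · exact Or.inr (Or.inr (List.mem_append_left _ h3))

theorem in2 {X Y : List Ω} {h t : Ω} (ht : t ∈ X ∨ t ∈ Y) : t ∈ X ∨ t ∈ Y ++ [h] := by
  rcases ht with h3 | h3
  · exact Or.inl h3
  · exact Or.inr (List.mem_append_left _ h3)

theorem in4 {X Y Z Q : List Ω} {h t : Ω} (ht : t ∈ X ∨ t ∈ Y ∨ t ∈ Z ∨ t ∈ Q) : t ∈ X ∨ t ∈ Y ∨ t ∈ Z ∨ t ∈ Q ++ [h] := by
  rcases ht with h3 | h3 | h3 | h3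
  · exact Or.inl h3
  · exact Or.inr (Or.inl h3)
  · exact Or.inr (Or.inr (Or.inl h3))
  · exact Or.inr (Or.inr (Or.inr (List.mem_append_left _ h3)))

theorem NEST6 : NEST_stmt 6 := by
  intro Ω _ p f s c e z hT h1 mg mr hz1 hz2 hL
  have hg := hT.gp
  have hw := hg.wf
  have hp := hw.inv
  obtain ⟨b, U, V, h, h', hF⟩ := frame hT
  have hn := mk_nd hF.wf.nd
  have hnn := List.nodup_append.mp hn
  have cU := hF.cU c (Or.inl rfl)
  have c'U := hF.cU (p c) (Or.inr (Or.inl rfl))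
  have eU := hF.cU e (Or.inr (Or.inr (Or.inl rfl)))
  have e'U := hF.cU (p e) (Or.inr (Or.inr (Or.inr rfl)))
  have zV := hF.zV z (Or.inl rfl)
  have z'V := hF.zV (p z) (Or.inr rfl)
  have e1 : (U ++ [h]).formPerm c = p c := by rw [← hF.fU c (List.mem_append_left _ cU)]; exact h1
  obtain ⟨P, Q, hU⟩ := split_adj hnn.1 cU e1 c'U
  obtain ⟨P', Q', R', hV⟩ := sub_split ((hF.ln z (p z) zV z'V).mpr hL)
  have hph : p h = h' ∧ p h' = h := by
    rcases hF.en with ⟨-, rfl, rfl⟩ | ⟨-, rfl, rfl⟩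
    · exact ⟨hp _, rfl⟩
    · exact ⟨rfl, hp _⟩
  obtain ⟨g, hgd⟩ : ∃ g, g = NA.pd s c := ⟨_, rfl⟩
  obtain ⟨r, hrd⟩ : ∃ r, r = NA.sc s (p c) := ⟨_, rfl⟩
  have inj : ∀ a b, p a = p b → a = b := fun a b h => by rw [← hp a, h, hp]
  have scg : NA.sc s g = c := by rw [hgd, NA.sc_pd]
  have scpg : NA.sc s (p g) = z := by rw [hgd, ← hz1, NA.sc_pd]
  have scpz : NA.sc s (p z) = p r := by rw [hrd, hz2]
  have fpm : ∀ (l : List Ω) (t : Ω), t ∈ l → l.formPerm t ∈ l := fun l t ht => List.formPerm_apply_mem_of_mem ht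
  have nec : e ≠ c := hT.ne
  have nec' : e ≠ p c := hT.ne'
  have ne'c : p e ≠ c := fun h => hT.ne' (by rw [← h, hp])
  have ne'c' : p e ≠ p c := fun h => hT.ne (inj _ _ h)
  have neg : ∀ t, (t = e ∨ t = p e) → t ≠ g ∧ t ≠ r := by
    intro t ht
    have h3 : Cd p s t := by
      rcases ht with rfl | rfl
      · exact hT.cd
      · exact hT.cd.sym hw
    exact ⟨fun h => mg.not hw (hgd ▸ h ▸ h3), fun h => mr.not hw (hrd ▸ h ▸ h3)⟩
  -- the shape of `U`
  have hP : (P = [] ∧ g = h) ∨ ∃ P1, P = P1 ++ [g] := by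
    cases P using List.reverseRecOn with
    | nil =>
      left
      refine ⟨rfl, ?_⟩
      have e2 : U ++ [h] = c :: ((p c :: Q) ++ [h]) := by rw [hU]; simp
      have h3 : (U ++ [h]).formPerm h = c := by
        rw [e2] at hnn ⊢
        exact fp_lst hnn.1
      rw [← hF.fU h (by simp)] at h3
      rw [hgd]
      exact NA.pd_of_sc h3
    | append_singleton P1 x _ =>
      right
      have e2 : U ++ [h] = P1 ++ x :: c :: ((p c :: Q) ++ [h]) := by rw [hU]; simp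
      have h3 : (U ++ [h]).formPerm x = c := by
        rw [e2] at hnn ⊢
        exact fp_mid hnn.1
      rw [← hF.fU x (by rw [e2]; simp)] at h3
      exact ⟨P1, by rw [hgd, NA.pd_of_sc h3]⟩
  have hQ : (Q = [] ∧ r = h) ∨ ∃ Q1, Q = r :: Q1 := by
    cases Q with
    | nil =>
      left
      refine ⟨rfl, ?_⟩
      have e2 : U ++ [h] = (P ++ [c]) ++ p c :: h :: [] := by rw [hU]; simp
      have h3 : (U ++ [h]).formPerm (p c) = h := by
        rw [e2] at hnn ⊢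
        exact fp_mid hnn.1
      rw [← hF.fU (p c) (List.mem_append_left _ c'U)] at h3
      rw [hrd]; exact h3
    | cons x Q1 =>
      right
      have e2 : U ++ [h] = (P ++ [c]) ++ p c :: x :: (Q1 ++ [h]) := by rw [hU]; simp
      have h3 : (U ++ [h]).formPerm (p c) = x := by
        rw [e2] at hnn ⊢
        exact fp_mid hnn.1
      rw [← hF.fU (p c) (List.mem_append_left _ c'U)] at h3
      exact ⟨Q1, by rw [hrd, h3]⟩
  -- membership
  have hUmem : ∀ t, t ∈ P ∨ t ∈ Q → t ∈ U := by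
    intro t ht
    rw [hU]
    rcases ht with h3 | h3
    · exact List.mem_append_left _ h3
    · exact List.mem_append_right _ (List.mem_cons_of_mem _ (List.mem_cons_of_mem _ h3))
  have dUV : ∀ t, t ∈ U ++ [h] → t ∈ V ++ [h'] → False := fun t h3 h4 => hnn.2.2 t h3 t h4 rfl
  have gU : g ∈ U ++ [h] := by
    rcases hP with ⟨-, h3⟩ | ⟨P1, h3⟩
    · rw [h3]; simp
    · exact List.mem_append_left _ (hUmem g (Or.inl (by rw [h3]; simp)))
  have rU : r ∈ U ++ [h] := by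
    rcases hQ with ⟨-, h3⟩ | ⟨P1, h3⟩
    · rw [h3]; simp
    · exact List.mem_append_left _ (hUmem r (Or.inr (by rw [h3]; simp)))
  have mUV : ∀ t, t ∈ U ++ [h] → Mx p s t → p t ∈ V ++ [h'] := by
    intro t ht hm
    rcases hF.mU t ht with h3 | h3
    · exact h3
    · exfalso
      apply hm.not hw
      rcases h3 with rfl | rfl | rfl | rfl
      · exact hT.cc
      · exact hT.cc.sym hw
      · exact hT.cd
      · exact hT.cd.sym hw
  have pgV := mUV g gU (hgd ▸ mg)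
  have prV := mUV r rU (hrd ▸ mr)
  obtain ⟨hP', hR'⟩ := v_shape hnn.2.1 hV pgV (by rw [← hF.fV _ pgV]; exact scpg) prV
    (by rw [← hF.fV _ (List.mem_append_left _ z'V)]; exact scpz)
  -- position of the letter e
  have emem : ∀ t, (t = e ∨ t = p e) → t ∈ P ∨ t ∈ Q := by
    intro t ht
    have h3 : t ∈ U := by rcases ht with rfl | rfl <;> assumption
    rw [hU] at h3
    rcases List.mem_append.mp h3 with h3 | h3
    · exact Or.inl h3
    · rcases List.mem_cons.mp h3 with h3 | h3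
      · exfalso
        rcases ht with rfl | rfl
        · exact nec h3
        · exact ne'c h3
      · rcases List.mem_cons.mp h3 with h3 | h3
        · exfalso
          rcases ht with rfl | rfl
          · exact nec' h3
          · exact ne'c' h3
        · exact Or.inr h3
  -- the final step from a shape
  have nU := hnn.1
  have nV := hnn.2.1
  have mU := hF.mU
  have mV := hF.mV
  have dr := hF.dr
  have hWF := hF.wf
  have hnot : ∀ d, (d = e ∨ d = p e) → ∀ t, (t = c ∨ t = p c ∨ t = e ∨ t = p e) → (t ≠ d ∧ t ≠ p d ∧ t ≠ c ∧ t ≠ p c) → False := by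
    intro d hd t h3 h4
    rcases h3 with h3 | h3 | h3 | h3
    · exact h4.2.2.1 h3
    · exact h4.2.2.2 h3
    · rcases hd with rfl | rfl
      · exact h4.1 h3
      · rw [hp] at h4; exact h4.2.1 h3
    · rcases hd with rfl | rfl
      · exact h4.2.1 h3
      · exact h4.1 h3
  have hnotz : ∀ t, (t = z ∨ t = p z) → (t ≠ z ∧ t ≠ p z) → False := by
    intro t h3 h4
    rcases h3 with h3 | h3
    · exact h4.1 h3
    · exact h4.2 h3
  have dbl : ∀ L : List Ω, e ∈ L → p e ∈ L → ∃ d, (d = e ∨ d = p e) ∧ ∃ X Y Z, L = X ++ d :: (Y ++ p d :: Z) := by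
    intro L k1 k2
    rcases split_z k1 k2 (hw.ne e) with ⟨X, Y, Z, k3⟩ | ⟨X, Y, Z, k3⟩
    · exact ⟨e, Or.inl rfl, X, Y, Z, k3⟩
    · exact ⟨p e, Or.inr rfl, X, Y, Z, by rw [hp]; exact k3⟩
  have hgh : g ∈ U → g ≠ h := fun k1 k2 => (List.nodup_append.mp nU).2.2 g k1 h (List.mem_singleton_self _) k2
  have hvh : ∀ v, v ∈ V → v ≠ h' := fun v k1 k2 => (List.nodup_append.mp nV).2.2 v k1 h' (List.mem_singleton_self _) k2
  have huh : ∀ v, v ∈ U → v ≠ h := fun v k1 k2 => (List.nodup_append.mp nU).2.2 v k1 h (List.mem_singleton_self _) k2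
  rcases hP with ⟨hP0, hgh0⟩ | ⟨P1, hP1⟩
  · -- start
    have hP'0 : P' = [] := by
      rcases hP' with h3 | ⟨P2, h3⟩
      · exact h3.2
      · exfalso
        exact hvh (p g) (by rw [hV, h3]; simp) (by rw [hgh0]; exact hph.1)
    rcases hQ with ⟨hQ0, hrh0⟩ | ⟨Q1, hQ1⟩
    · exfalso
      rcases emem e (Or.inl rfl) with h3 | h3
      · rw [hP0] at h3; simp at h3
      · rw [hQ0] at h3; simp at h3
    · obtain ⟨R1, hR1⟩ : ∃ R1, R' = p r :: R1 := by
        rcases hR' with h3 | h3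
        · exfalso
          exact huh r (hUmem r (Or.inr (by rw [hQ1]; simp))) (by have := congrArg p h3.1; rwa [hp, hph.2] at this)
        · exact h3
      have inQ : ∀ t, (t = e ∨ t = p e) → t ∈ Q1 := by
        intro t ht
        rcases emem t ht with h3 | h3
        · rw [hP0] at h3; simp at h3
        · rw [hQ1] at h3
          rcases List.mem_cons.mp h3 with h3 | h3
          · exact absurd h3 (neg t ht).2
          · exact h3
      obtain ⟨d, hd, X, Y, Z, hX⟩ := dbl Q1 (inQ e (Or.inl rfl)) (inQ (p e) (Or.inr rfl))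
      have eU : U ++ [h] = c :: (p c :: (r :: (X ++ (d :: (Y ++ (p d :: (Z ++ ([h])))))))) := by rw [hU, hP0, hQ1, hX]; simp
      have eV : V ++ [h'] = z :: (Q' ++ (p z :: (p r :: (R1 ++ ([h']))))) := by rw [hV, hP'0, hR1]; simp
      rw [eU] at nU
      rw [eV] at nV
      rw [eU, eV] at hWF dr mU
      rw [eV, eU] at mV
      refine dr 6 (NEST_U6 hF.en hWF ?_ ?_)
      · intro t ht
        have k := out6 nU (in3 ht)
        rcases mU t k.2 with h4 | h4
        · exact h4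
        · exact (hnot d hd t h4 k.1).elim
      · intro t ht
        have k := outv6 nV (in2 ht)
        rcases mV t k.2 with h4 | h4
        · exact h4
        · exact (hnotz t h4 k.1).elim
  · obtain ⟨P2, hP2⟩ : ∃ P2, P' = P2 ++ [p g] := by
      rcases hP' with h3 | h3
      · exfalso
        exact huh g (hUmem g (Or.inl (by rw [hP1]; simp))) (by have := congrArg p h3.1; rwa [hp, hph.2] at this)
      · exact h3
    have inP : ∀ t, (t = e ∨ t = p e) → t ∈ P → t ∈ P1 := by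
      intro t ht h3
      rw [hP1] at h3
      rcases List.mem_append.mp h3 with h3 | h3
      · exact h3
      · exact absurd (List.mem_singleton.mp h3) (neg t ht).1
    rcases hQ with ⟨hQ0, hrh0⟩ | ⟨Q1, hQ1⟩
    · -- end
      have hR0 : R' = [] := by
        rcases hR' with h3 | ⟨R2, h3⟩
        · exact h3.2
        · exfalso
          exact hvh (p r) (by rw [hV, h3]; simp) (by rw [hrh0]; exact hph.1)
      have inP' : ∀ t, (t = e ∨ t = p e) → t ∈ P1 := by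
        intro t ht
        rcases emem t ht with h3 | h3
        · exact inP t ht h3
        · rw [hQ0] at h3; simp at h3
      obtain ⟨d, hd, X, Y, Z, hX⟩ := dbl P1 (inP' e (Or.inl rfl)) (inP' (p e) (Or.inr rfl))
      have eU : U ++ [h] = X ++ (d :: (Y ++ (p d :: (Z ++ (g :: (c :: (p c :: ([h])))))))) := by rw [hU, hP1, hQ0, hX]; simp
      have eV : V ++ [h'] = P2 ++ (p g :: (z :: (Q' ++ (p z :: ([h']))))) := by rw [hV, hP2, hR0]; simp
      rw [eU] at nU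
      rw [eV] at nV
      rw [eU, eV] at hWF dr mU
      rw [eV, eU] at mV
      refine dr 6 (NEST_U8 hF.en hWF ?_ ?_)
      · intro t ht
        have k := out8 nU ht
        rcases mU t k.2 with h4 | h4
        · exact h4
        · exact (hnot d hd t h4 k.1).elim
      · intro t ht
        have k := outv8 nV ht
        rcases mV t k.2 with h4 | h4
        · exact h4
        · exact (hnotz t h4 k.1).elim
    · obtain ⟨R1, hR1⟩ : ∃ R1, R' = p r :: R1 := by
        rcases hR' with h3 | h3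
        · exfalso
          exact huh r (hUmem r (Or.inr (by rw [hQ1]; simp))) (by have := congrArg p h3.1; rwa [hp, hph.2] at this)
        · exact h3
      have inQ : ∀ t, (t = e ∨ t = p e) → t ∈ Q → t ∈ Q1 := by
        intro t ht h3
        rw [hQ1] at h3
        rcases List.mem_cons.mp h3 with h3 | h3
        · exact absurd h3 (neg t ht).2
        · exact h3
      have eV : V ++ [h'] = P2 ++ (p g :: (z :: (Q' ++ (p z :: (p r :: (R1 ++ ([h']))))))) := by rw [hV, hP2, hR1]; simp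
      rw [eV] at nV
      -- one token on each side
      have one : ∀ d, (d = e ∨ d = p e) → d ∈ P1 → p d ∈ Q1 → DG p 6 f s := by
        intro d hd k1 k2
        obtain ⟨X, Y, hX⟩ := List.append_of_mem k1
        obtain ⟨Z, T, hZ⟩ := List.append_of_mem k2
        have eU : U ++ [h] = X ++ (d :: (Y ++ (g :: (c :: (p c :: (r :: (Z ++ (p d :: (T ++ ([h])))))))))) := by
          rw [hU, hP1, hQ1, hX, hZ]; simp
        rw [eU] at nU
        rw [eU, eV] at hWF dr mU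
        rw [eV, eU] at mV
        refine dr 6 (NEST_U1 hF.en hWF ?_ ?_)
        · intro t ht
          have k := out1 nU (in4 ht)
          rcases mU t k.2 with h4 | h4
          · exact h4
          · exact (hnot d hd t h4 k.1).elim
        · intro t ht
          have k := outv nV (in3 ht)
          rcases mV t k.2 with h4 | h4
          · exact h4
          · exact (hnotz t h4 k.1).elim
      rcases emem e (Or.inl rfl) with k1 | k1 <;> rcases emem (p e) (Or.inr rfl) with k2 | k2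
      · -- both before
        obtain ⟨d, hd, X, Y, Z, hX⟩ := dbl P1 (inP e (Or.inl rfl) k1) (inP (p e) (Or.inr rfl) k2)
        have eU : U ++ [h] = X ++ (d :: (Y ++ (p d :: (Z ++ (g :: (c :: (p c :: (r :: (Q1 ++ ([h])))))))))) := by
          rw [hU, hP1, hQ1, hX]; simp
        rw [eU] at nU
        rw [eU, eV] at hWF dr mU
        rw [eV, eU] at mV
        refine dr 6 (NEST_U0 hF.en hWF ?_ ?_)
        · intro t ht
          have k := out0 nU (in4 ht)
          rcases mU t k.2 with h4 | h4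
          · exact h4
          · exact (hnot d hd t h4 k.1).elim
        · intro t ht
          have k := outv nV (in3 ht)
          rcases mV t k.2 with h4 | h4
          · exact h4
          · exact (hnotz t h4 k.1).elim
      · exact one e (Or.inl rfl) (inP e (Or.inl rfl) k1) (inQ (p e) (Or.inr rfl) k2)
      · exact one (p e) (Or.inr rfl) (inP (p e) (Or.inr rfl) k2) (by rw [hp]; exact inQ e (Or.inl rfl) k1)
      · -- both after
        obtain ⟨d, hd, X, Y, Z, hX⟩ := dbl Q1 (inQ e (Or.inl rfl) k1) (inQ (p e) (Or.inr rfl) k2)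
        have eU : U ++ [h] = P1 ++ (g :: (c :: (p c :: (r :: (X ++ (d :: (Y ++ (p d :: (Z ++ ([h])))))))))) := by
          rw [hU, hP1, hQ1, hX]; simp
        rw [eU] at nU
        rw [eU, eV] at hWF dr mU
        rw [eV, eU] at mV
        refine dr 6 (NEST_U2 hF.en hWF ?_ ?_)
        · intro t ht
          have k := out2 nU (in4 ht)
          rcases mU t k.2 with h4 | h4
          · exact h4
          · exact (hnot d hd t h4 k.1).elim
        · intro t ht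
          have k := outv nV (in3 ht)
          rcases mV t k.2 with h4 | h4
          · exact h4
          · exact (hnotz t h4 k.1).elim

end T1C
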