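import Pool.Agent.helper72.T1.CL
import Pool.Agent.helper72.T1.Nst

/-!
# MP_c8d30a, exponent 12: the contact lemma without hypotheses
-/

set_option autoImplicit false

namespace T1C

open NTH

variable {Ω : Type} [DecidableEq Ω] {p : Ω → Ω} {f : Ω} {s : St Ω}

/-- CONTACT LEMMA. -/
theorem CL9 (hg : GP p f s) {t : Ω} (ht : Cd p s t) (ht' : Cd p s (NA.sc s t)) (hne : NA.sc s t ≠ p t) (r0 : Ω → Ω) :
    DG p 9 f s ∨ Low p r0 f (NTS.D2 p s + 6) 1 s :=
  CL SC6 PAR9 NEST6 (by norm_num) (by norm_num) (by norm_num) hg ht ht' hne r0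

end T1C
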