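import Pool.Agent.helper36.T1.PartII
import Pool.Agent.helper51.T1.Glue
import Pool.Agent.helper51.T1.Two
import Pool.Agent.helper55.BG.BigT
import Pool.Agent.helper72.T1.CL9

/-!
# MP_c8d30a, exponent 12: PART II
-/

set_option autoImplicit false

namespace T1C

open NTH NP

theorem big1 : Pool.Agent.helper51.T1.BIG1_stmt 8 := by
  intro Ω _ p f s c d z g w hT mg mw hg1 hg2 h1 h2 h3
  have e1 : NA.pd s c = g := NA.pd_of_sc h1
  refine DG.mono (Pool.Agent.helper55.BG.BIG1 hT.gp hT.cc (by rw [e1]; exact mg) (by rw [h2]; exact mw)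
    (by rw [e1, h2]; exact h3) (by rw [e1]; exact hg1) (by rw [e1]; exact hg2) hT.cd hT.sd hT.ne hT.ne' hT.cz hT.sz) (by norm_num)

theorem big2 : Pool.Agent.helper51.T1.BIG2_stmt 8 := by
  intro Ω _ p f s c d z g w hT mg mw _ _ h1 h2 h3 h4
  have e1 : NA.pd s c = g := NA.pd_of_sc h1
  exact Pool.Agent.helper55.BG.BIG2 hT h2 (by rw [e1]; exact mg) (by rw [h3]; exact mw) (by rw [e1, h3]; exact h4)

theorem cases9 : Pool.Agent.helper36.T1.CasesS 9 := by
  intro Ω _ p f s hg h8 h2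
  rcases Pool.Agent.helper51.T1.PII_cases hg h8 h2 with h | h | h | h
  · left
    obtain ⟨n, hn, s', a1, a2, a3, a4, -, a5⟩ := h
    exact ⟨n, hn, s', a1, a2, a3, a4, a5⟩
  · exact Or.inr ((Pool.Agent.helper51.T1.G1_DG big1 hg h2 h).mono (by norm_num))
  · exact Or.inr ((Pool.Agent.helper51.T1.G2_DG big2 hg h2 h).mono (by norm_num))
  · exact Or.inr ((Pool.Agent.helper51.T1.G3_DG NEST6 hg h2 h).mono (by norm_num))

theorem cls9 : Pool.Agent.helper36.T1.CLS 9 := by
  intro Ω _ p r f s hg hA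
  obtain ⟨t, h1, h2, h3⟩ := hA
  exact CL9 hg h1 h2 h3 r

/-- PART II. -/
theorem PII (c : ℕ) : PartII c (c + 6) 42 := Pool.Agent.helper36.T1.PartII_of cases9 cls9 c

end T1C
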