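import Pool.Agent.helper72.T1.Hyp
import Pool.Agent.helper55.BG.Good
import Pool.Agent.helper55.BG.Root
import Pool.Agent.helper3.NP.SC

/-!
# MP_c8d30a, exponent 12: contact lemma, part 6: from the functional form to words
-/

set_option autoImplicit false
set_option linter.unusedSectionVars false

namespace T1C

open Equiv List NTH
open Pool.Agent.helper32.RH (fp_mid fp_lst rot_split)

variable {Ω : Type} [DecidableEq Ω] {p : Ω → Ω} {f : Ω}

/-- the two words in the given order. -/
def mk (b : Bool) (U V : List Ω) : St Ω := match b with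
  | true => (U, V)
  | false => (V, U)

theorem mk_nd {b : Bool} {U V : List Ω} (h : ((mk b U V).1 ++ (mk b U V).2).Nodup) : (U ++ V).Nodup := by
  cases b with
  | true => exact h
  | false => exact (List.perm_append_comm.nodup_iff).mp h

theorem mk_mem {b : Bool} {U V : List Ω} {t : Ω} : t ∈ (mk b U V).1 ++ (mk b U V).2 ↔ t ∈ U ∨ t ∈ V := by
  cases b with
  | true => exact List.mem_append
  | false => exact List.mem_append.trans or_comm

/-- which token is at the end. -/
def En (p : Ω → Ω) (f : Ω) (b : Bool) (h h' : Ω) : Prop := (b = true ∧ h = p f ∧ h' = f) ∨ (b = false ∧ h = f ∧ h' = p f)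

/-- the data of a frame: the word `U` of the letters `c`, `d`, the word `V` of the letter `z`. -/
structure Fra (p : Ω → Ω) (f : Ω) (s : St Ω) (c d z : Ω) (b : Bool) (U V : List Ω) (h h' : Ω) : Prop where
  en : En p f b h h'
  wf : WF p (mk b (U ++ [h]) (V ++ [h']))
  fU : ∀ t ∈ U ++ [h], NA.sc s t = (U ++ [h]).formPerm t
  fV : ∀ t ∈ V ++ [h'], NA.sc s t = (V ++ [h']).formPerm t
  sc : NA.sc (mk b (U ++ [h]) (V ++ [h'])) = NA.sc s
  mU : ∀ t ∈ U ++ [h], p t ∈ V ++ [h'] ∨ (t = c ∨ t = p c ∨ t = d ∨ t = p d)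
  mV : ∀ t ∈ V ++ [h'], p t ∈ U ++ [h] ∨ (t = z ∨ t = p z)
  cU : ∀ t, (t = c ∨ t = p c ∨ t = d ∨ t = p d) → t ∈ U
  zV : ∀ t, (t = z ∨ t = p z) → t ∈ V
  dr : ∀ K, Pool.Agent.helper55.BG.Dr p K f (mk b (U ++ [h]) (V ++ [h'])) → DG p K f s
  ln : ∀ t u, t ∈ V → u ∈ V → ([t, u] <+ V ↔ Lin p f s t u)
  mx : ∀ t, (t ∈ U ++ [h] ∧ p t ∈ V ++ [h']) ∨ (t ∈ V ++ [h'] ∧ p t ∈ U ++ [h]) → Mx p s t

theorem sub_snoc {l : List Ω} {t u h : Ω} (hu : u ≠ h) : [t, u] <+ l ++ [h] ↔ [t, u] <+ l := by
  constructor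
  · intro H
    have e : [t, u] = [t] ++ [u] := rfl
    obtain ⟨l1, l2, e1, h1, h2⟩ := List.sublist_append_iff.mp H
    cases l2 with
    | nil => rw [List.append_nil] at e1; rw [e1]; exact h1
    | cons a l2 =>
      have h3 := h2.length_le
      simp only [List.length_cons, List.length_nil] at h3
      have h4 : l2 = [] := List.length_eq_zero_iff.mp (by omega)
      subst h4
      have h5 : a = h := by
        have := h2.subset List.mem_cons_self
        simpa using this
      subst h5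
      exfalso
      rw [e] at e1
      exact hu (List.append_inj' e1 rfl |>.2 |> List.cons.inj |>.1)
  · exact fun H => H.trans (List.sublist_append_left l [h])

theorem tri_cases' {c d z t : Ω} (h : t ∈ tri p c d z) : (t = c ∨ t = p c ∨ t = d ∨ t = p d) ∨ (t = z ∨ t = p z) := by
  rw [mem_tri] at h
  rcases h with h | h | h | h | h | h
  · exact Or.inl (Or.inl h)
  · exact Or.inl (Or.inr (Or.inl h))
  · exact Or.inl (Or.inr (Or.inr (Or.inl h)))
  · exact Or.inl (Or.inr (Or.inr (Or.inr h)))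
  · exact Or.inr (Or.inl h)
  · exact Or.inr (Or.inr h)

theorem side_ne0 {s : St Ω} (hw : WF p s) {t z : Ω} (hz : Cd p s z) (h : ¬ (z ∈ s.1 ↔ t ∈ s.1)) : t ≠ z ∧ t ≠ p z :=
  ⟨fun e => h (by rw [e]), fun e => h (by rw [e]; exact (hz.side hw).symm)⟩

theorem frame {s : St Ω} {c d z : Ω} (hT : Tri p f s c d z) : ∃ b U V h h', Fra p f s c d z b U V h h' := by
  have hg := hT.gp
  have hw := hg.wf
  have hp := hw.inv
  obtain ⟨A, hA⟩ := rot_to hg.fA
  have hA' : s.1 ~r A ++ [p f] := hA.trans (List.IsRotated.cons_append_singleton)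
  obtain ⟨B, hB⟩ := List.getLast?_eq_some_iff.mp hg.last
  have hn := List.nodup_append.mp hw.nd
  have hperm : ((A ++ [p f]) ++ s.2).Perm (s.1 ++ s.2) := hA'.perm.symm.append_right _
  have hw1 : WF p (A ++ [p f], s.2) := NA.wf_perm hw hperm.symm
  have hfp : (A ++ [p f]).formPerm = s.1.formPerm := (List.formPerm_eq_of_isRotated hn.1 hA').symm
  have hsc : NA.sc (A ++ [p f], s.2) = NA.sc s := by
    unfold NA.sc
    rw [hfp]
  have mA : ∀ t, t ∈ A ++ [p f] ↔ t ∈ s.1 := fun t => hA'.mem_iff.symm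
  have hdr : ∀ K, Pool.Agent.helper55.BG.Dr p K f (A ++ [p f], s.2) → DG p K f s := by
    intro K h
    obtain ⟨o, ho⟩ := hg.red
    obtain ⟨o', ho'⟩ := hg.blu
    exact (Pool.Agent.helper55.BG.Dr.rot (A := s.1) (B := s.2) hA' h ⟨o, ho.1, ho.2⟩ ⟨o', ho'.1, ho'.2⟩).gp
  have f1 : ∀ t ∈ A ++ [p f], NA.sc s t = (A ++ [p f]).formPerm t := by
    intro t ht
    rw [hfp]
    exact NA.sc_A hw.nd ((mA t).mp ht)
  have f2 : ∀ t ∈ s.2, NA.sc s t = s.2.formPerm t := fun t ht => NA.sc_B hw.nd ht
  have nf : ∀ t, Cd p s t → t ≠ f ∧ t ≠ p f := by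
    intro t ht
    have h1 : Mx p s f := Or.inr ⟨List.mem_of_getLast? hg.last, hg.fA⟩
    exact ⟨fun e => h1.not hw (e ▸ ht), fun e => (h1.sym hw).not hw (e ▸ ht)⟩
  have inA : ∀ t, Cd p s t → t ∈ s.1 → t ∈ A := by
    intro t ht h1
    rcases List.mem_append.mp ((mA t).mpr h1) with h2 | h2
    · exact h2
    · exact absurd (List.mem_singleton.mp h2) (nf t ht).2
  have inB : ∀ t, Cd p s t → t ∈ s.2 → t ∈ B := by
    intro t ht h1
    rw [hB] at h1
    rcases List.mem_append.mp h1 with h2 | h2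
    · exact h2
    · exact absurd (List.mem_singleton.mp h2) (nf t ht).1
  have inS2 : ∀ t, Cd p s t → t ∉ s.1 → t ∈ s.2 := by
    intro t ht h1
    rcases List.mem_append.mp ht.mem with h2 | h2
    · exact absurd h2 h1
    · exact h2
  have cd4 : ∀ t, (t = c ∨ t = p c ∨ t = d ∨ t = p d) → Cd p s t ∧ (t ∈ s.1 ↔ c ∈ s.1) := by
    rintro t (rfl | rfl | rfl | rfl)
    · exact ⟨hT.cc, Iff.rfl⟩
    · exact ⟨hT.cc.sym hw, hT.cc.side hw⟩
    · exact ⟨hT.cd, hT.sd⟩
    · exact ⟨hT.cd.sym hw, (hT.cd.side hw).trans hT.sd⟩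
  have cd2 : ∀ t, (t = z ∨ t = p z) → Cd p s t ∧ (t ∈ s.1 ↔ z ∈ s.1) := by
    rintro t (rfl | rfl)
    · exact ⟨hT.cz, Iff.rfl⟩
    · exact ⟨hT.cz.sym hw, hT.cz.side hw⟩
  have lnA : ∀ t u, t ∈ A → u ∈ A → ([t, u] <+ A ↔ Lin p f s t u) := by
    intro t u ht hu
    constructor
    · exact fun h => Or.inr ⟨A, hA', h⟩
    · rintro (h | ⟨A2, h1, h2⟩)
      · exfalso
        exact dis hw ((mA t).mp (List.mem_append_left _ ht)) (h.subset List.mem_cons_self)
      · have h3 : s.1 ~r p f :: A2 := h1.trans (List.IsRotated.cons_append_singleton).symm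
        rwa [rot_cons hn.1 hA h3]
  have lnB : ∀ t u, t ∈ B → u ∈ B → ([t, u] <+ B ↔ Lin p f s t u) := by
    intro t u ht hu
    have hn2 := hn.2.1
    rw [hB] at hn2
    have hne : u ≠ f := fun e => (List.nodup_append.mp hn2).2.2 u hu f (List.mem_singleton_self _) e
    constructor
    · intro h
      left
      rw [hB, sub_snoc hne]
      exact h
    · rintro (h | ⟨A2, h1, h2⟩)
      · rw [hB, sub_snoc hne] at h
        exact h
      · exfalso
        have h3 : t ∈ s.1 := h1.mem_iff.mpr (List.mem_append_left _ (h2.subset List.mem_cons_self))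
        exact dis hw h3 (by rw [hB]; exact List.mem_append_left _ ht)
  by_cases hc : c ∈ s.1
  · have hz : z ∉ s.1 := fun h => hT.sz.mp h hc
    refine ⟨true, A, B, p f, f, Or.inl ⟨rfl, rfl, rfl⟩, ?_, f1, ?_, ?_, ?_, ?_, ?_, ?_, ?_, lnB, ?_⟩
    · rw [← hB]; exact hw1
    · rw [← hB]; exact f2
    · rw [← hB]; exact hsc
    · intro t ht
      rw [← hB]
      rcases cd_or hw (List.mem_append_left _ ((mA t).mp ht)) with h1 | h1
      · left
        rcases h1 with h1 | h1
        · exact h1.2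
        · exact absurd h1.1 (dis hw ((mA t).mp ht))
      · right
        rcases tri_cases' (hT.only t h1) with h2 | h2
        · exact h2
        · exact absurd ((mA t).mp ht) (fun h => hz (((cd2 t h2).2).mp h))
    · intro t ht
      rw [← hB] at ht
      rcases cd_or hw (List.mem_append_right _ ht) with h1 | h1
      · left
        rcases h1 with h1 | h1
        · exact absurd ht (dis hw h1.1)
        · exact (mA _).mpr h1.2
      · right
        rcases tri_cases' (hT.only t h1) with h2 | h2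
        · exact absurd ht (dis hw (((cd4 t h2).2).mpr hc))
        · exact h2
    · exact fun t ht => inA t (cd4 t ht).1 ((cd4 t ht).2.mpr hc)
    · exact fun t ht => inB t (cd2 t ht).1 (inS2 t (cd2 t ht).1 (fun h => hz ((cd2 t ht).2.mp h)))
    · rw [← hB]; exact hdr
    · intro t ht
      rw [← hB] at ht
      simp only [mA] at ht
      exact ht
  · have hz : z ∈ s.1 := hT.sz.mpr hc
    refine ⟨false, B, A, f, p f, Or.inr ⟨rfl, rfl, rfl⟩, ?_, ?_, f1, ?_, ?_, ?_, ?_, ?_, ?_, lnA, ?_⟩
    · rw [← hB]; exact hw1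
    · rw [← hB]; exact f2
    · rw [← hB]; exact hsc
    · intro t ht
      rw [← hB] at ht
      rcases cd_or hw (List.mem_append_right _ ht) with h1 | h1
      · left
        rcases h1 with h1 | h1
        · exact absurd ht (dis hw h1.1)
        · exact (mA _).mpr h1.2
      · right
        rcases tri_cases' (hT.only t h1) with h2 | h2
        · exact h2
        · exact absurd ht (dis hw (((cd2 t h2).2).mpr hz))
    · intro t ht
      rw [← hB]
      rcases cd_or hw (List.mem_append_left _ ((mA t).mp ht)) with h1 | h1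
      · left
        rcases h1 with h1 | h1
        · exact h1.2
        · exact absurd h1.1 (dis hw ((mA t).mp ht))
      · right
        rcases tri_cases' (hT.only t h1) with h2 | h2
        · exact absurd ((mA t).mp ht) (fun h => hc (((cd4 t h2).2).mp h))
        · exact h2
    · exact fun t ht => inB t (cd4 t ht).1 (inS2 t (cd4 t ht).1 (fun h => hc ((cd4 t ht).2.mp h)))
    · exact fun t ht => inA t (cd2 t ht).1 ((cd2 t ht).2.mpr hz)
    · rw [← hB]; exact hdr
    · intro t ht
      rw [← hB] at ht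
      simp only [mA] at ht
      exact ht.symm

end T1C
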