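import Pool.Agent.helper14.NTN.Cl4
import Pool.Agent.helper32.RH.Drop
import Pool.Agent.helper3.NA.StepH

/-!
# MP_c8d30a, exponent 12: contact lemma, part 1: gaps

A gap of a pair `s`: the word `G` of coloured tokens between two consecutive mixed tokens `g`, `r` of the same word.
-/

set_option autoImplicit false
set_option linter.unusedSectionVars false

namespace T1C

open Equiv List NTH
open Pool.Agent.helper32.RH (fp_mid fp_lst rot_split)

variable {Ω : Type} [DecidableEq Ω] {p : Ω → Ω}

/-- coloured token. -/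
def Cd (p : Ω → Ω) (s : St Ω) (t : Ω) : Prop := NA.Red p s t ∨ NA.Blu p s t

/-- mixed token. -/
def Mx (p : Ω → Ω) (s : St Ω) (t : Ω) : Prop := NA.MA p s t ∨ NA.MB p s t

/-- `G` is the gap after the mixed token `g`, `r` is the next mixed token. -/
structure GapS (p : Ω → Ω) (s : St Ω) (g : Ω) (G : List Ω) (r : Ω) : Prop where
  mg : Mx p s g
  mr : Mx p s r
  col : ∀ t ∈ G, Cd p s t
  rot : ∃ R, (s.1 ~r g :: (G ++ R) ∨ s.2 ~r g :: (G ++ R)) ∧ (R ++ [g]).head? = some r

section basic

variable {s : St Ω}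

theorem dis (hw : WF p s) {t : Ω} (h : t ∈ s.1) : t ∉ s.2 := fun h' => (List.nodup_append.mp hw.nd).2.2 t h t h' rfl

theorem Cd.mem {t : Ω} (h : Cd p s t) : t ∈ s.1 ++ s.2 := by
  rcases h with h | h
  · exact List.mem_append_left _ h.1
  · exact List.mem_append_right _ h.1

theorem Mx.mem {t : Ω} (h : Mx p s t) : t ∈ s.1 ++ s.2 := by
  rcases h with h | h
  · exact List.mem_append_left _ h.1
  · exact List.mem_append_right _ h.1

theorem Cd.sym (hw : WF p s) {t : Ω} (h : Cd p s t) : Cd p s (p t) := by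
  rcases h with h | h
  · exact Or.inl ⟨h.2, by rw [hw.inv]; exact h.1⟩
  · exact Or.inr ⟨h.2, by rw [hw.inv]; exact h.1⟩

theorem Mx.sym (hw : WF p s) {t : Ω} (h : Mx p s t) : Mx p s (p t) := by
  rcases h with h | h
  · exact Or.inr ⟨h.2, by rw [hw.inv]; exact h.1⟩
  · exact Or.inl ⟨h.2, by rw [hw.inv]; exact h.1⟩

theorem Mx.not (hw : WF p s) {t : Ω} (h : Mx p s t) : ¬ Cd p s t := by
  rintro (h' | h')
  · rcases h with h | h
    · exact dis hw h'.2 h.2
    · exact dis hw h'.1 h.1
  · rcases h with h | h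
    · exact dis hw h.1 h'.1
    · exact dis hw h.2 h'.2

theorem cd_or (hw : WF p s) {t : Ω} (h : t ∈ s.1 ++ s.2) : Mx p s t ∨ Cd p s t := by
  have h2 := List.mem_append.mp (hw.cl t h)
  rcases List.mem_append.mp h with h1 | h1
  · rcases h2 with h2 | h2
    · exact Or.inr (Or.inl ⟨h1, h2⟩)
    · exact Or.inl (Or.inl ⟨h1, h2⟩)
  · rcases h2 with h2 | h2
    · exact Or.inl (Or.inr ⟨h1, h2⟩)
    · exact Or.inr (Or.inr ⟨h1, h2⟩)

theorem Cd.side (hw : WF p s) {t : Ω} (h : Cd p s t) : p t ∈ s.1 ↔ t ∈ s.1 := by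
  rcases h with h | h
  · exact ⟨fun _ => h.1, fun _ => h.2⟩
  · exact ⟨fun h1 => absurd h.2 (dis hw h1), fun h1 => absurd h.1 (dis hw h1)⟩

theorem Mx.side (hw : WF p s) {t : Ω} (h : Mx p s t) : p t ∈ s.1 ↔ t ∉ s.1 := by
  rcases h with h | h
  · exact ⟨fun h1 => absurd h.2 (dis hw h1), fun h1 => absurd h.1 h1⟩
  · exact ⟨fun _ h1 => dis hw h1 h.1, fun _ => h.2⟩

end basic

section lists

theorem rot_cons {l T T' : List Ω} {g : Ω} (hn : l.Nodup) (h : l ~r g :: T) (h' : l ~r g :: T') : T = T' := by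
  obtain ⟨L, R, e1, e2⟩ := rot_split (h.symm.trans h')
  have hn' : (g :: T).Nodup := h.nodup_iff.mp hn
  cases L with
  | nil =>
    rw [List.nil_append] at e1
    rw [← e1, List.append_nil] at e2
    simp only [List.cons.injEq, true_and] at e2
    exact e2.symm
  | cons a L =>
    rw [List.cons_append, List.cons.injEq] at e1
    obtain ⟨rfl, rfl⟩ := e1
    cases R with
    | nil =>
      simp only [List.nil_append, List.cons.injEq, true_and] at e2
      rw [e2, List.append_nil]
    | cons b R =>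
      rw [List.cons_append, List.cons.injEq] at e2
      obtain ⟨rfl, -⟩ := e2
      exact absurd (List.mem_append_right L List.mem_cons_self) (List.nodup_cons.mp hn').1

theorem rot_filter {l l' : List Ω} (h : l ~r l') (q : Ω → Bool) : l.filter q ~r l'.filter q := by
  obtain ⟨L, R, e1, e2⟩ := rot_split h
  rw [e1, e2, List.filter_append, List.filter_append]
  exact List.isRotated_append

theorem rot_to {l : List Ω} {g : Ω} (h : g ∈ l) : ∃ T, l ~r g :: T := by
  obtain ⟨L, R, e⟩ := List.append_of_mem h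
  exact ⟨R ++ L, by rw [e]; simpa using List.isRotated_append (l := L) (l' := g :: R)⟩

/-- the last token with `k` in a word starting with such a token. -/
theorem last_k {k : Ω → Prop} (m : Ω) (hm : k m) (T : List Ω) : ∃ P g Q, m :: T = P ++ g :: Q ∧ k g ∧ ∀ t ∈ Q, ¬ k t := by
  classical
  induction T using List.reverseRecOn with
  | nil => exact ⟨[], m, [], rfl, hm, by simp⟩
  | append_singleton T a ih =>
    by_cases ha : k a
    · exact ⟨m :: T, a, [], by simp, ha, by simp⟩
    · obtain ⟨P, g, Q, h1, h2, h3⟩ := ih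
      refine ⟨P, g, Q ++ [a], ?_, h2, ?_⟩
      · rw [← List.cons_append, h1]; simp
      · intro t ht
        rcases List.mem_append.mp ht with ht | ht
        · exact h3 t ht
        · rw [List.mem_singleton.mp ht]; exact ha

/-- the first token with `k`. -/
theorem first_k {k : Ω → Prop} (T : List Ω) : ∃ Q R, T = Q ++ R ∧ (∀ t ∈ Q, ¬ k t) ∧ ∀ r, R.head? = some r → k r := by
  classical
  induction T with
  | nil => exact ⟨[], [], rfl, by simp, by simp⟩
  | cons a T ih =>
    by_cases ha : k a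
    · exact ⟨[], a :: T, rfl, by simp, by intro r hr; simp only [List.head?_cons, Option.some.injEq] at hr; exact hr ▸ ha⟩
    · obtain ⟨Q, R, h1, h2, h3⟩ := ih
      refine ⟨a :: Q, R, by rw [h1]; rfl, ?_, h3⟩
      intro t ht
      rcases List.mem_cons.mp ht with rfl | ht
      · exact ha
      · exact h2 t ht

theorem prefix_uniq {k : Ω → Prop} : ∀ {G G' R R' : List Ω}, G ++ R = G' ++ R' → (∀ t ∈ G, ¬ k t) → (∀ t ∈ G', ¬ k t) →
    (∀ r, R.head? = some r → k r) → (∀ r, R'.head? = some r → k r) → G = G' ∧ R = R' := by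
  intro G
  induction G with
  | nil =>
    intro G' R R' h _ h2 h3 _
    cases G' with
    | nil => exact ⟨rfl, by simpa using h⟩
    | cons a G' =>
      exfalso
      rw [List.nil_append] at h
      exact h2 a List.mem_cons_self (h3 a (by rw [h]; rfl))
  | cons a G ih =>
    intro G' R R' h h1 h2 h3 h4
    cases G' with
    | nil =>
      exfalso
      rw [List.nil_append] at h
      exact h1 a List.mem_cons_self (h4 a (by rw [← h]; rfl))
    | cons b G' =>
      rw [List.cons_append, List.cons_append, List.cons.injEq] at h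
      obtain ⟨rfl, h⟩ := h
      obtain ⟨rfl, h5⟩ := ih h (fun t ht => h1 t (List.mem_cons_of_mem _ ht)) (fun t ht => h2 t (List.mem_cons_of_mem _ ht)) h3 h4
      exact ⟨rfl, h5⟩

/-- consecutive tokens of a cyclic word. -/
theorem fp_chain {l G R P Q : List Ω} {g r a b : Ω} (hn : l.Nodup) (h : l ~r g :: (G ++ R)) (hr : (R ++ [g]).head? = some r)
    (e : g :: (G ++ [r]) = P ++ a :: b :: Q) : List.formPerm l a = b := by
  rw [List.formPerm_eq_of_isRotated hn h]
  have hn' := h.nodup_iff.mp hn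
  cases R with
  | cons r' R =>
    simp only [List.cons_append, List.head?_cons, Option.some.injEq] at hr
    subst hr
    have e1 : g :: (G ++ r' :: R) = P ++ a :: b :: (Q ++ R) := by
      have : g :: (G ++ r' :: R) = (g :: (G ++ [r'])) ++ R := by simp
      rw [this, e]; simp
    rw [e1] at hn' ⊢
    exact fp_mid hn'
  | nil =>
    simp only [List.nil_append, List.head?_cons, Option.some.injEq] at hr
    subst hr
    rw [List.append_nil] at hn' ⊢
    rcases List.eq_nil_or_concat Q with rfl | ⟨Q', b', rfl⟩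
    · have e1 : g :: G = P ++ [a] ∧ b = g := by
        have : g :: (G ++ [g]) = (g :: G) ++ [g] := rfl
        rw [this] at e
        have e2 : P ++ [a, b] = (P ++ [a]) ++ [b] := by simp
        rw [e2] at e
        have := List.append_inj' e rfl
        simp only [List.cons.injEq, and_true] at this
        exact ⟨this.1, this.2.symm⟩
      obtain ⟨e1, rfl⟩ := e1
      cases P with
      | nil =>
        simp only [List.nil_append, List.cons.injEq] at e1
        obtain ⟨rfl, rfl⟩ := e1
        simp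
      | cons c P =>
        simp only [List.cons_append, List.cons.injEq] at e1
        obtain ⟨rfl, rfl⟩ := e1
        exact fp_lst hn'
    · have e1 : g :: G = P ++ a :: b :: Q' := by
        have h1 : g :: (G ++ [g]) = (g :: G) ++ [g] := rfl
        rw [h1] at e
        have e2 : P ++ a :: b :: Q'.concat b' = (P ++ a :: b :: Q') ++ [b'] := by simp
        rw [e2] at e
        exact (List.append_inj' e rfl).1
      rw [e1] at hn' ⊢
      exact fp_mid hn'

end lists

section gaps

variable {s : St Ω}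

theorem GapS.word (hw : WF p s) {g r : Ω} {G : List Ω} (h : GapS p s g G r) : ∃ l R, (l = s.1 ∨ l = s.2) ∧ l.Nodup ∧
    l ~r g :: (G ++ R) ∧ (R ++ [g]).head? = some r ∧ (∀ t ∈ l, Mx p s t ∨ Cd p s t) ∧ (∀ t, R.head? = some t → Mx p s t) ∧
    (∀ t ∈ l, (t ∈ s.1 ↔ g ∈ s.1)) := by
  obtain ⟨R, h1, h2⟩ := h.rot
  have hn := List.nodup_append.mp hw.nd
  have hR : ∀ t, R.head? = some t → Mx p s t := by
    intro t ht
    cases R with
    | nil => simp at ht
    | cons a R =>
      simp only [List.cons_append, List.head?_cons, Option.some.injEq] at h2 ht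
      rw [← ht, h2]
      exact h.mr
  rcases h1 with h1 | h1
  · exact ⟨s.1, R, Or.inl rfl, hn.1, h1, h2, fun t ht => cd_or hw (List.mem_append_left _ ht), hR,
      fun t ht => ⟨fun _ => h1.mem_iff.mpr List.mem_cons_self, fun _ => ht⟩⟩
  · have hg : g ∈ s.2 := h1.mem_iff.mpr List.mem_cons_self
    exact ⟨s.2, R, Or.inr rfl, hn.2.1, h1, h2, fun t ht => cd_or hw (List.mem_append_right _ ht), hR,
      fun t ht => ⟨fun h3 => absurd ht (dis hw h3), fun h3 => absurd hg (dis hw h3)⟩⟩

theorem GapS.sc (hw : WF p s) {g r a b : Ω} {G P Q : List Ω} (h : GapS p s g G r) (e : g :: (G ++ [r]) = P ++ a :: b :: Q) :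
    NA.sc s a = b := by
  obtain ⟨R, h1, h2⟩ := h.rot
  have hn := List.nodup_append.mp hw.nd
  have ha : a ∈ g :: (G ++ R) := by
    have h3 : a ∈ g :: G := by
      rcases List.eq_nil_or_concat Q with rfl | ⟨Q', b', rfl⟩
      · have e2 : P ++ [a, b] = (P ++ [a]) ++ [b] := by simp
        have : g :: (G ++ [r]) = (g :: G) ++ [r] := rfl
        rw [this, e2] at e
        rw [(List.append_inj' e rfl).1]; simp
      · have e2 : P ++ a :: b :: Q'.concat b' = (P ++ a :: b :: Q') ++ [b'] := by simp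
        have : g :: (G ++ [r]) = (g :: G) ++ [r] := rfl
        rw [this, e2] at e
        rw [(List.append_inj' e rfl).1]; simp
    rcases List.mem_cons.mp h3 with rfl | h3
    · exact List.mem_cons_self
    · exact List.mem_cons_of_mem _ (List.mem_append_left _ h3)
  rcases h1 with h1 | h1
  · rw [NA.sc_A hw.nd (h1.mem_iff.mpr ha)]
    exact fp_chain hn.1 h1 h2 e
  · rw [NA.sc_B hw.nd (h1.mem_iff.mpr ha)]
    exact fp_chain hn.2.1 h1 h2 e

/-- the gap of a coloured token exists. -/
theorem GapS.ex (hw : WF p s) {f : Ω} (hf : s.2.getLast? = some f) (hfA : p f ∈ s.1) {t : Ω} (ht : Cd p s t) :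
    ∃ g G r, GapS p s g G r ∧ t ∈ G := by
  have hfB : f ∈ s.2 := List.mem_of_getLast? hf
  have main : ∀ l : List Ω, l.Nodup → (l = s.1 ∨ l = s.2) → t ∈ l → (∃ m ∈ l, Mx p s m) → ∃ g G r, GapS p s g G r ∧ t ∈ G := by
    intro l hn hl htl hm
    obtain ⟨m, hm1, hm2⟩ := hm
    obtain ⟨T, hT⟩ := rot_to hm1
    have hall : ∀ v ∈ l, ¬ Mx p s v → Cd p s v := by
      intro v hv h1
      have : v ∈ s.1 ++ s.2 := by
        rcases hl with rfl | rfl
        · exact List.mem_append_left _ hv
        · exact List.mem_append_right _ hv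
      rcases cd_or hw this with h2 | h2
      · exact absurd h2 h1
      · exact h2
    have htT : t ∈ T := by
      rcases List.mem_cons.mp (hT.mem_iff.mp htl) with h1 | h1
      · exact absurd (h1 ▸ ht) (hm2.not hw)
      · exact h1
    obtain ⟨T1, T2, e⟩ := List.append_of_mem htT
    obtain ⟨P, g, Q, e1, hg, hQ⟩ := last_k (k := Mx p s) m hm2 T1
    obtain ⟨Q', R, e2, hQ', hR⟩ := first_k (k := Mx p s) T2
    have hrot : l ~r g :: ((Q ++ t :: Q') ++ (R ++ P)) := by
      refine hT.trans ?_
      have e3 : m :: T = P ++ (g :: (Q ++ t :: (Q' ++ R))) := by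
        rw [e, ← List.cons_append, e1, e2]; simp
      have e4 : g :: ((Q ++ t :: Q') ++ (R ++ P)) = (g :: (Q ++ t :: (Q' ++ R))) ++ P := by simp
      rw [e3, e4]
      exact List.isRotated_append
    have hmem : ∀ v ∈ g :: ((Q ++ t :: Q') ++ (R ++ P)), v ∈ l := fun v hv => hrot.mem_iff.mpr hv
    have hr : ∃ r, ((R ++ P) ++ [g]).head? = some r ∧ Mx p s r := by
      cases R with
      | cons r R => exact ⟨r, rfl, hR r rfl⟩
      | nil =>
        cases P with
        | nil => exact ⟨g, rfl, hg⟩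
        | cons a P =>
          simp only [List.cons_append, List.cons.injEq] at e1
          exact ⟨a, rfl, e1.1 ▸ hm2⟩
    obtain ⟨r, hr1, hr2⟩ := hr
    refine ⟨g, Q ++ t :: Q', r, ⟨hg, hr2, ?_, R ++ P, ?_, hr1⟩, by simp⟩
    · intro v hv
      have hvl : v ∈ l := hmem v (List.mem_cons_of_mem _ (List.mem_append_left _ hv))
      rcases List.mem_append.mp hv with h1 | h1
      · exact hall v hvl (hQ v h1)
      · rcases List.mem_cons.mp h1 with rfl | h1
        · exact ht
        · exact hall v hvl (hQ' v h1)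
    · rcases hl with rfl | rfl
      · exact Or.inl hrot
      · exact Or.inr hrot
  have hn := List.nodup_append.mp hw.nd
  rcases ht with ht' | ht'
  · exact main s.1 hn.1 (Or.inl rfl) ht'.1 ⟨p f, hfA, Or.inl ⟨hfA, by rw [hw.inv]; exact hfB⟩⟩
  · exact main s.2 hn.2.1 (Or.inr rfl) ht'.1 ⟨f, hfB, Or.inr ⟨hfB, hfA⟩⟩

theorem same_word (hw : WF p s) {l l' : List Ω} (hl : l = s.1 ∨ l = s.2) (hl' : l' = s.1 ∨ l' = s.2) {t : Ω} (h : t ∈ l)
    (h' : t ∈ l') : l = l' := by
  rcases hl with rfl | rfl <;> rcases hl' with rfl | rfl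
  · rfl
  · exact absurd h' (dis hw h)
  · exact absurd h (dis hw h')
  · rfl

theorem GapS.uniq (hw : WF p s) {g r r' : Ω} {G G' : List Ω} (h : GapS p s g G r) (h' : GapS p s g G' r') : G = G' ∧ r = r' := by
  obtain ⟨l, R, hl, hn, h1, h2, -, h3, -⟩ := h.word hw
  obtain ⟨l', R', hl', hn', h1', h2', -, h3', -⟩ := h'.word hw
  have e : l = l' := same_word hw hl hl' (h1.mem_iff.mpr List.mem_cons_self) (h1'.mem_iff.mpr List.mem_cons_self)
  subst e
  have e1 := rot_cons hn h1 h1'
  obtain ⟨e2, e3⟩ := prefix_uniq (k := Mx p s) e1 (fun t ht h4 => h4.not hw (h.col t ht)) (fun t ht h4 => h4.not hw (h'.col t ht)) h3 h3'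
  refine ⟨e2, ?_⟩
  rw [e3, h2'] at h2
  exact (Option.some.inj h2).symm

theorem GapS.uniq' (hw : WF p s) {g g' r r' t : Ω} {G G' : List Ω} (h : GapS p s g G r) (h' : GapS p s g' G' r') (ht : t ∈ G)
    (ht' : t ∈ G') : g = g' := by
  obtain ⟨l, R, hl, hn, h1, h2, -, h3, -⟩ := h.word hw
  obtain ⟨l', R', hl', hn', h1', h2', -, h3', -⟩ := h'.word hw
  obtain ⟨L, M, rfl⟩ := List.append_of_mem ht
  obtain ⟨L', M', rfl⟩ := List.append_of_mem ht'
  have e : l = l' := same_word hw hl hl' (t := t) (h1.mem_iff.mpr (by simp)) (h1'.mem_iff.mpr (by simp))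
  subst e
  have r1 : l ~r t :: ((M ++ R) ++ g :: L) := by
    refine h1.trans ?_
    have e4 : g :: ((L ++ t :: M) ++ R) = (g :: L) ++ (t :: (M ++ R)) := by simp
    have e5 : t :: ((M ++ R) ++ g :: L) = (t :: (M ++ R)) ++ (g :: L) := by simp
    rw [e4, e5]
    exact List.isRotated_append
  have r2 : l ~r t :: ((M' ++ R') ++ g' :: L') := by
    refine h1'.trans ?_
    have e4 : g' :: ((L' ++ t :: M') ++ R') = (g' :: L') ++ (t :: (M' ++ R')) := by simp
    have e5 : t :: ((M' ++ R') ++ g' :: L') = (t :: (M' ++ R')) ++ (g' :: L') := by simp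
    rw [e4, e5]
    exact List.isRotated_append
  have e1 := rot_cons hn r1 r2
  have e2 := congrArg List.reverse e1
  simp only [List.reverse_append, List.reverse_cons, List.append_assoc, List.singleton_append] at e2
  obtain ⟨-, e4⟩ := prefix_uniq (k := Mx p s) e2 (fun v hv h4 => h4.not hw (h.col v (List.mem_append_left _ (List.mem_reverse.mp hv))))
    (fun v hv h4 => h4.not hw (h'.col v (List.mem_append_left _ (List.mem_reverse.mp hv))))
    (fun v hv => (Option.some.inj hv) ▸ h.mg)
    (fun v hv => (Option.some.inj hv) ▸ h'.mg)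
  exact (List.cons.inj e4).1

theorem GapS.first (hw : WF p s) {g r t : Ω} {G : List Ω} (h : GapS p s g G r) (ht : t ∈ G) (hp : Mx p s (NA.pd s t)) :
    NA.pd s t = g ∧ ∃ G', G = t :: G' := by
  obtain ⟨L, M, rfl⟩ := List.append_of_mem ht
  rcases List.eq_nil_or_concat L with rfl | ⟨L', u, rfl⟩
  · refine ⟨NA.pd_of_sc (h.sc hw (P := []) (a := g) (b := t) (Q := M ++ [r]) (by simp)), M, by simp⟩
  · exfalso
    have h1 : NA.pd s t = u := NA.pd_of_sc (h.sc hw (P := g :: L') (a := u) (b := t) (Q := M ++ [r]) (by simp))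
    rw [h1] at hp
    exact hp.not hw (h.col u (by simp))

theorem GapS.last (hw : WF p s) {g r t : Ω} {G : List Ω} (h : GapS p s g G r) (ht : t ∈ G) (hp : Mx p s (NA.sc s t)) :
    NA.sc s t = r ∧ ∃ G', G = G' ++ [t] := by
  obtain ⟨L, M, rfl⟩ := List.append_of_mem ht
  cases M with
  | nil => exact ⟨h.sc hw (P := g :: L) (a := t) (b := r) (Q := []) (by simp), L, rfl⟩
  | cons u M =>
    exfalso
    have h1 : NA.sc s t = u := h.sc hw (P := g :: L) (a := t) (b := u) (Q := M ++ [r]) (by simp)
    rw [h1] at hp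
    exact hp.not hw (h.col u (by simp))

end gaps

end T1C
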