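import Pool.Agent.helper72.T1.Hyp

/-!
# MP_c8d30a, exponent 12: contact lemma, part 4: two consequences of `no drop`
-/

set_option autoImplicit false
set_option linter.unusedSectionVars false

namespace T1C

open Equiv List NTH

variable {Ω : Type} [DecidableEq Ω] {p : Ω → Ω} {f : Ω} {s : St Ω}

theorem GapS.mem_nxt (hw : WF p s) {g r a : Ω} {G : List Ω} (h : GapS p s g G r) (ha : a ∈ G) (hc : Cd p s (NA.sc s a)) :
    NA.sc s a ∈ G := by
  obtain ⟨P, Q, e⟩ := List.append_of_mem ha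
  obtain ⟨Q', rfl⟩ := h.nxt hw e rfl hc
  rw [e]; simp

theorem GapS.mem_prv (hw : WF p s) {g r a : Ω} {G : List Ω} (h : GapS p s g G r) (ha : a ∈ G) (hc : Cd p s (NA.pd s a)) :
    NA.pd s a ∈ G := by
  obtain ⟨P, Q, e⟩ := List.append_of_mem ha
  rcases List.eq_nil_or_concat P with rfl | ⟨P', u, rfl⟩
  · exfalso
    have := NA.pd_of_sc (h.sc hw (P := []) (a := g) (b := a) (Q := Q ++ [r]) (by rw [e]; simp))
    rw [this] at hc
    exact h.mg.not hw hc
  · have := NA.pd_of_sc (h.sc hw (P := g :: P') (a := u) (b := a) (Q := Q ++ [r]) (by rw [e]; simp))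
    rw [this, e]; simp

theorem cd_other (hw : WF p s) {z w : Ω} (hz : Cd p s z) (h : w = z ∨ w = p z) : Cd p s w ∧ (w ∈ s.1 ↔ z ∈ s.1) := by
  rcases h with rfl | rfl
  · exact ⟨hz, Iff.rfl⟩
  · exact ⟨hz.sym hw, hz.side hw⟩

theorem side_ne (hw : WF p s) {t z : Ω} (hz : Cd p s z) (h : ¬ (t ∈ s.1 ↔ z ∈ s.1)) : t ≠ z ∧ t ≠ p z :=
  ⟨fun e => h (by rw [e]), fun e => h (by rw [e]; exact hz.side hw)⟩

theorem side_ne4 (hw : WF p s) {t c d : Ω} (hc : Cd p s c) (hd : Cd p s d) (h : ¬ (t ∈ s.1 ↔ c ∈ s.1)) (sd : d ∈ s.1 ↔ c ∈ s.1) :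
    t ≠ c ∧ t ≠ p c ∧ t ≠ d ∧ t ≠ p d :=
  ⟨(side_ne hw hc h).1, (side_ne hw hc h).2, (side_ne hw hd (by rw [sd]; exact h)).1, (side_ne hw hd (by rw [sd]; exact h)).2⟩

theorem four_p (hp : ∀ t : Ω, p (p t) = t) {a b t : Ω} (h : t ∈ [a, b, p b, p a]) : p t ∈ [a, b, p b, p a] := by
  simp only [List.mem_cons, List.not_mem_nil, or_false] at h ⊢
  rcases h with rfl | rfl | rfl | rfl
  · exact Or.inr (Or.inr (Or.inr rfl))
  · exact Or.inr (Or.inr (Or.inl rfl))
  · exact Or.inr (Or.inl (hp _))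
  · exact Or.inl (hp _)

theorem p4 (hp : ∀ t : Ω, p (p t) = t) {c d t : Ω} (h : t = c ∨ t = p c ∨ t = d ∨ t = p d) :
    p t = c ∨ p t = p c ∨ p t = d ∨ p t = p d := by
  rcases h with rfl | rfl | rfl | rfl
  · exact Or.inr (Or.inl rfl)
  · exact Or.inl (hp _)
  · exact Or.inr (Or.inr (Or.inr rfl))
  · exact Or.inr (Or.inr (Or.inl (hp _)))

theorem tri4 {c d z t : Ω} (h : t = c ∨ t = p c ∨ t = d ∨ t = p d) : t ∈ tri p c d z := by
  rw [mem_tri]
  rcases h with h | h | h | h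
  · exact Or.inl h
  · exact Or.inr (Or.inl h)
  · exact Or.inr (Or.inr (Or.inl h))
  · exact Or.inr (Or.inr (Or.inr (Or.inl h)))

theorem triz {c d z t : Ω} (h : t = z ∨ t = p z) : t ∈ tri p c d z := by
  rw [mem_tri]
  rcases h with h | h
  · exact Or.inr (Or.inr (Or.inr (Or.inr (Or.inl h))))
  · exact Or.inr (Or.inr (Or.inr (Or.inr (Or.inr h))))

theorem tri_cases {c d z t : Ω} (h : t ∈ tri p c d z) : (t = c ∨ t = p c ∨ t = d ∨ t = p d) ∨ (t = z ∨ t = p z) := by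
  rw [mem_tri] at h
  rcases h with h | h | h | h | h | h
  · exact Or.inl (Or.inl h)
  · exact Or.inl (Or.inr (Or.inl h))
  · exact Or.inl (Or.inr (Or.inr (Or.inl h)))
  · exact Or.inl (Or.inr (Or.inr (Or.inr h)))
  · exact Or.inr (Or.inl h)
  · exact Or.inr (Or.inr h)

theorem zp_p (hp : ∀ t : Ω, p (p t) = t) {z w : Ω} (h : w = z ∨ w = p z) : p w = z ∨ p w = p z := by
  rcases h with rfl | rfl
  · exact Or.inr rfl
  · exact Or.inl (hp _)

theorem fpn_use (hg : GP p f s) {c d z g r a b : Ω} {G : List Ω} (hc : Cd p s c) (hd : Cd p s d) (hz : Cd p s z)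
    (sd : d ∈ s.1 ↔ c ∈ s.1) (sz : z ∈ s.1 ↔ c ∉ s.1) (ne : d ≠ c) (ne' : d ≠ p c) (hG : GapS p s g G r) (hcG : c ∈ G) (hdG : d ∈ G)
    (ha : a = c ∨ a = p c ∨ a = d ∨ a = p d) (hb : b = c ∨ b = p c ∨ b = d ∨ b = p d) (haG : a ∈ G)
    (e1 : NA.sc (NA.fil (kp p s (tri p c d z)) s) a = b) (e2 : NA.sc (NA.fil (kp p s (tri p c d z)) s) (p b) = p a)
    (hF : Fpn p f (NA.fil (kp p s (tri p c d z)) s) a b z) :
    p c ∈ G ∧ p d ∈ G ∧ (G.filter (lt2 p c d)).reverse = (G.filter (lt2 p c d)).map p ∧ ∃ w, Zp p f s g r z w := by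
  have hw := hg.wf
  have hp := hw.inv
  have hT := Tri.fil hg hc hd hz sd sz ne ne'
  have hw' := hT.gp.wf
  have hq := kp_p (p := p) (s := s) hw (c := c) (d := d) (z := z)
  have hm : ∀ t, Mx p s t → kp p s (tri p c d z) t = true := fun t ht => kp_iff.mpr (Or.inl ht)
  have ktri : ∀ t, t ∈ tri p c d z → kp p s (tri p c d z) t = true := fun t ht => kp_iff.mpr (Or.inr ht)
  have hG' := hG.fil hq hm
  have cd4 : ∀ t, (t = c ∨ t = p c ∨ t = d ∨ t = p d) → Cd p s t := by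
    rintro t (rfl | rfl | rfl | rfl)
    · exact hc
    · exact hc.sym hw
    · exact hd
    · exact hd.sym hw
  have cd4' : ∀ t, (t = c ∨ t = p c ∨ t = d ∨ t = p d) → Cd p (NA.fil (kp p s (tri p c d z)) s) t := fun t ht =>
    (cd_fil hq).mpr ⟨cd4 t ht, ktri t (tri4 ht)⟩
  have haG' : a ∈ G.filter (kp p s (tri p c d z)) := List.mem_filter.mpr ⟨haG, ktri a (tri4 ha)⟩
  obtain ⟨f1, f2, f3, w, hw1, hw2, hw3, hw4⟩ := hF
  obtain ⟨e3, G2, e4⟩ := hG'.first hw' haG' f2
  obtain ⟨G3, rfl⟩ := hG'.nxt hw' (P := []) (a := a) (Q := G2) (by simpa using e4) e1 (cd4' b hb)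
  obtain ⟨G4, rfl⟩ := hG'.nxt hw' (P := [a]) (a := b) (Q := G3) (by simpa using e4) f1 (cd4' _ (p4 hp hb))
  obtain ⟨G5, rfl⟩ := hG'.nxt hw' (P := [a, b]) (a := p b) (Q := G4) (by simpa using e4) e2 (cd4' _ (p4 hp ha))
  obtain rfl := hG'.fin hw' (P := [a, b, p b]) (a := p a) (Q := G5) (by simpa using e4) f3
  have e6 : NA.sc (NA.fil (kp p s (tri p c d z)) s) (p a) = r :=
    hG'.sc hw' (P := g :: [a, b, p b]) (a := p a) (b := r) (Q := []) (by rw [e4]; simp)
  have side : ∀ t ∈ G, (t ∈ s.1 ↔ c ∈ s.1) := fun t ht => (hG.side hw ht).trans (hG.side hw hcG).symm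
  have hpz := hz.side hw
  have e5 : G.filter (lt2 p c d) = [a, b, p b, p a] := by
    rw [← filter_eq_lt2 (z := z) hG.col hw ?_]
    · exact e4
    · intro t ht
      exact side_ne hw hz (by rw [side t ht, sz]; exact iff_not_self)
  have pcl : ∀ t, t ∈ G → (t = c ∨ t = p c ∨ t = d ∨ t = p d) → p t ∈ G := by
    intro t ht h4
    have h1 : t ∈ G.filter (kp p s (tri p c d z)) := List.mem_filter.mpr ⟨ht, ktri t (tri4 h4)⟩
    have h2 : p t ∈ G.filter (kp p s (tri p c d z)) := by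
      rw [e4] at h1 ⊢
      exact four_p hp h1
    exact (List.mem_filter.mp h2).1
  refine ⟨pcl c hcG (Or.inl rfl), pcl d hdG (Or.inr (Or.inr (Or.inl rfl))), ?_, w, hw1, ?_, ?_, ?_⟩
  · rw [e5]; simp [hp]
  · obtain ⟨cw, sw⟩ := cd_other hw hz hw1
    obtain ⟨g1, G1, r1, k1, k2⟩ := GapS.ex hw hg.last hg.fA cw
    have k1' := k1.fil hq hm
    have kw : kp p s (tri p c d z) w = true := ktri w (triz hw1)
    rw [e3] at hw2
    obtain ⟨k3, G6, k4⟩ := k1'.first hw' (List.mem_filter.mpr ⟨k2, kw⟩) (by rw [hw2]; exact hG'.mg.sym hw')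
    rw [hw2] at k3
    subst k3
    refine ⟨G1, r1, k1, ?_⟩
    rw [← filter_eq_lt1 (c := c) (d := d) k1.col hw ?_, k4]
    · rfl
    · intro t ht
      have h1 : t ∈ s.1 ↔ w ∈ s.1 := (k1.side hw ht).trans (k1.side hw k2).symm
      exact side_ne4 hw hc hd (by rw [h1, sw, sz]; exact fun h => iff_not_self h.symm) sd
  · obtain ⟨cw, sw⟩ := cd_other hw hz hw1
    have cpw := cw.sym hw
    have spw := cw.side hw
    obtain ⟨g2, G1, r1, k1, k2⟩ := GapS.ex hw hg.last hg.fA cpw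
    have k1' := k1.fil hq hm
    have kw : kp p s (tri p c d z) (p w) = true := ktri (p w) (triz (zp_p hp hw1))
    rw [e6] at hw3
    obtain ⟨k3, G6, k4⟩ := k1'.last hw' (List.mem_filter.mpr ⟨k2, kw⟩) (by rw [hw3]; exact hG'.mr.sym hw')
    rw [hw3] at k3
    subst k3
    refine ⟨g2, G1, k1, ?_⟩
    rw [← filter_eq_lt1 (c := c) (d := d) k1.col hw ?_, k4]
    · simp
    · intro t ht
      have h1 : t ∈ s.1 ↔ p w ∈ s.1 := (k1.side hw ht).trans (k1.side hw k2).symm
      exact side_ne4 hw hc hd (by rw [h1, spw, sw, sz]; exact fun h => iff_not_self h.symm) sd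
  · have hf : f ∈ s.2 := List.mem_of_getLast? hg.last
    have kw : kp p s (tri p c d z) w = true := ktri w (triz hw1)
    exact (lin_fil hw hq (hm f (Or.inr ⟨hf, hg.fA⟩)) hg.fA kw (by rw [hq]; exact kw)).mp hw4

theorem H1 {K1 K2 K : ℕ} (hSC : SC_stmt K1) (hPAR : PAR_stmt K2) (hK1 : K1 ≤ K) (hK2 : K2 ≤ K) (hg : GP p f s)
    (hnd : ¬ DG p K f s) {c d z g r : Ω} {G : List Ω} (hz : Cd p s z) (sz : z ∈ s.1 ↔ c ∉ s.1) (ne : d ≠ c) (ne' : d ≠ p c)
    (hG : GapS p s g G r) (hcG : c ∈ G) (hdG : d ∈ G) :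
    p c ∈ G ∧ p d ∈ G ∧ (G.filter (lt2 p c d)).reverse = (G.filter (lt2 p c d)).map p ∧ ∃ w, Zp p f s g r z w := by
  have hw := hg.wf
  have hp := hw.inv
  have hc := hG.col c hcG
  have hd := hG.col d hdG
  have sd : d ∈ s.1 ↔ c ∈ s.1 := (hG.side hw hdG).trans (hG.side hw hcG).symm
  have hT := Tri.fil hg hc hd hz sd sz ne ne'
  have hw' := hT.gp.wf
  have hq := kp_p (p := p) (s := s) hw (c := c) (d := d) (z := z)
  have hm : ∀ t, Mx p s t → kp p s (tri p c d z) t = true := fun t ht => kp_iff.mpr (Or.inl ht)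
  have ktri : ∀ t, t ∈ tri p c d z → kp p s (tri p c d z) t = true := fun t ht => kp_iff.mpr (Or.inr ht)
  have hG' := hG.fil hq hm
  have hnd1 : ∀ k, k ≤ K → ¬ DG p k f (NA.fil (kp p s (tri p c d z)) s) := fun k hk h => hnd ((h.fil hg hq hm).mono hk)
  have side : ∀ t ∈ G, (t ∈ s.1 ↔ c ∈ s.1) := fun t ht => (hG.side hw ht).trans (hG.side hw hcG).symm
  have hpz := hz.side hw
  have four : ∀ t ∈ G.filter (kp p s (tri p c d z)), t = c ∨ t = p c ∨ t = d ∨ t = p d := by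
    intro t ht
    obtain ⟨h1, h2⟩ := List.mem_filter.mp ht
    have h3 := side t h1
    rcases kp_iff.mp h2 with h4 | h4
    · exact absurd (hG.col t h1) (h4.not hw)
    · rcases tri_cases h4 with h4 | h4
      · exact h4
      · have h5 := side_ne hw hz (t := t) (by rw [h3, sz]; exact iff_not_self)
        rcases h4 with h4 | h4
        · exact absurd h4 h5.1
        · exact absurd h4 h5.2
  obtain ⟨P, a, b, Q, e, e1, e2⟩ := adj_diff hp (List.mem_filter.mpr ⟨hcG, ktri c (by simp [tri])⟩)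
    (List.mem_filter.mpr ⟨hdG, ktri d (by simp [tri])⟩) ne ne'
  have ha : a ∈ G.filter (kp p s (tri p c d z)) := by rw [e]; simp
  have hb : b ∈ G.filter (kp p s (tri p c d z)) := by rw [e]; simp
  have a4 := four a ha
  have b4 := four b hb
  have hT' := hT.swap a4 b4 e1 e2
  have s1 : NA.sc (NA.fil (kp p s (tri p c d z)) s) a = b :=
    hG'.sc hw' (P := g :: P) (a := a) (b := b) (Q := Q ++ [r]) (by rw [e]; simp)
  rcases hSC Ω p f _ a b z hT' s1 with h | s2
  · exact absurd h (hnd1 _ hK1)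
  rcases hPAR Ω p f _ a b z hT' s1 s2 with h | h | h
  · exact absurd h (hnd1 _ hK2)
  · exact fpn_use hg hc hd hz sd sz ne ne' hG hcG hdG a4 b4 (List.mem_filter.mp ha).1 s1 s2 h
  · have k1 : NA.sc (NA.fil (kp p s (tri p c d z)) s) (p a) = a := by
      have := h.1
      rwa [hp] at this
    have ca : Cd p (NA.fil (kp p s (tri p c d z)) s) a := hG'.col a ha
    have pa : p a ∈ G.filter (kp p s (tri p c d z)) := by
      have h5 := hG'.mem_prv hw' ha (by rw [NA.pd_of_sc k1]; exact ca.sym hw')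
      rwa [NA.pd_of_sc k1] at h5
    have cb : Cd p (NA.fil (kp p s (tri p c d z)) s) b := hG'.col b hb
    have pb : p b ∈ G.filter (kp p s (tri p c d z)) := by
      have h5 := hG'.mem_prv hw' pa (by rw [NA.pd_of_sc s2]; exact cb.sym hw')
      rwa [NA.pd_of_sc s2] at h5
    exact fpn_use hg hc hd hz sd sz ne ne' hG hcG hdG (p4 hp b4) (p4 hp a4) (List.mem_filter.mp pb).1 s2 (by rw [hp, hp]; exact s1) h

theorem H2 {K3 K : ℕ} (hN : NEST_stmt K3) (hK3 : K3 ≤ K) (hg : GP p f s)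
    (hnd : ¬ DG p K f s) {c e z w g r : Ω} {G : List Ω} (hz : Cd p s z) (he : Cd p s e) (sz : z ∈ s.1 ↔ c ∉ s.1)
    (se : e ∈ s.1 ↔ c ∈ s.1) (hG : GapS p s g G r) (hcG : G.filter (lt1 p c) = [c, p c]) (heG : e ∉ G) (heG' : p e ∉ G)
    (hZ : Zp p f s g r z w) : False := by
  have hw := hg.wf
  have hp := hw.inv
  have cG : c ∈ G := by
    have : c ∈ G.filter (lt1 p c) := by rw [hcG]; simp
    exact (List.mem_filter.mp this).1
  have pcG : p c ∈ G := by
    have : p c ∈ G.filter (lt1 p c) := by rw [hcG]; simp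
    exact (List.mem_filter.mp this).1
  have hc := hG.col c cG
  obtain ⟨cw, sw⟩ := cd_other hw hz hZ.1
  have ne : e ≠ c := fun h => heG (h ▸ cG)
  have ne' : e ≠ p c := fun h => heG (h ▸ pcG)
  have hT := Tri.fil hg hc he cw se (sw.trans sz) ne ne'
  have hw' := hT.gp.wf
  have hq := kp_p (p := p) (s := s) hw (c := c) (d := e) (z := w)
  have hm : ∀ t, Mx p s t → kp p s (tri p c e w) t = true := fun t ht => kp_iff.mpr (Or.inl ht)
  have ktri : ∀ t, t ∈ tri p c e w → kp p s (tri p c e w) t = true := fun t ht => kp_iff.mpr (Or.inr ht)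
  have hG' := hG.fil hq hm
  have side : ∀ t ∈ G, (t ∈ s.1 ↔ c ∈ s.1) := fun t ht => (hG.side hw ht).trans (hG.side hw cG).symm
  have spw := cw.side hw
  have e0 : G.filter (kp p s (tri p c e w)) = [c, p c] := by
    rw [← hcG]
    apply List.filter_congr
    intro t ht
    rw [Bool.eq_iff_iff, kp_iff, mem_tri]
    unfold lt1
    rw [decide_eq_true_iff]
    have h4 : ¬ Mx p s t := fun h => h.not hw (hG.col t ht)
    have h5 : t ≠ e := fun h => heG (h ▸ ht)
    have h6 : t ≠ p e := fun h => heG' (h ▸ ht)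
    have h7 := side t ht
    have h8 := side_ne hw cw (t := t) (by rw [h7, sw, sz]; exact iff_not_self)
    clear sw spw side hG' hm hq hw' hT ktri hZ hnd hN hG
    constructor
    · rintro (h | h | h | h | h | h | h)
      · exact absurd h h4
      · exact Or.inl h
      · exact Or.inr h
      · exact absurd h h5
      · exact absurd h h6
      · exact absurd h h8.1
      · exact absurd h h8.2
    · rintro (h | h)
      · exact Or.inr (Or.inl h)
      · exact Or.inr (Or.inr (Or.inl h))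
  rw [e0] at hG'
  have s1 : NA.sc (NA.fil (kp p s (tri p c e w)) s) c = p c := hG'.sc hw' (P := [g]) (Q := [r]) (by simp)
  have s2 : NA.sc (NA.fil (kp p s (tri p c e w)) s) g = c := hG'.sc hw' (P := []) (Q := [p c, r]) (by simp)
  have s3 : NA.sc (NA.fil (kp p s (tri p c e w)) s) (p c) = r := hG'.sc hw' (P := [g, c]) (Q := []) (by simp)
  obtain ⟨hw1, ⟨G1, r1, k1, k2⟩, ⟨g2, G2, k3, k4⟩, hL⟩ := hZ
  have lz : ∀ t, lt1 p z t = lt1 p w t := by
    intro t
    rw [Bool.eq_iff_iff]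
    unfold lt1
    rw [decide_eq_true_iff, decide_eq_true_iff]
    rcases hw1 with rfl | rfl
    · rfl
    · rw [hp]; exact or_comm
  have lz' : lt1 p z = lt1 p w := funext lz
  rw [lz'] at k2 k4
  have sce : ∀ t, (t ∈ s.1 ↔ w ∈ s.1) → t ≠ c ∧ t ≠ p c ∧ t ≠ e ∧ t ≠ p e := by
    intro t h1
    exact side_ne4 hw hc he (by rw [h1, sw, sz]; exact fun h => iff_not_self h.symm) se
  have w1 : w ∈ G1 := by
    have := List.mem_of_head? k2
    exact (List.mem_filter.mp this).1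
  have w2 : p w ∈ G2 := by
    have := List.mem_of_getLast? k4
    exact (List.mem_filter.mp this).1
  have a1 : NA.sc (NA.fil (kp p s (tri p c e w)) s) (p g) = w := by
    have k1' := k1.fil hq hm
    have e1 : G1.filter (kp p s (tri p c e w)) = G1.filter (lt1 p w) := filter_eq_lt1 k1.col hw
      (fun t ht => sce t ((k1.side hw ht).trans (k1.side hw w1).symm))
    rw [e1] at k1'
    obtain ⟨T, hT⟩ : ∃ T, G1.filter (lt1 p w) = w :: T := by
      cases h : G1.filter (lt1 p w) with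
      | nil => rw [h] at k2; simp at k2
      | cons a T =>
        rw [h] at k2
        simp only [List.head?_cons, Option.some.injEq] at k2
        exact ⟨T, by rw [k2]⟩
    rw [hT] at k1'
    exact k1'.sc hw' (P := []) (Q := T ++ [r1]) (by simp)
  have a2 : NA.sc (NA.fil (kp p s (tri p c e w)) s) (p w) = p r := by
    have k3' := k3.fil hq hm
    have e1 : G2.filter (kp p s (tri p c e w)) = G2.filter (lt1 p w) := filter_eq_lt1 k3.col hw
      (fun t ht => sce t (by rw [(k3.side hw ht).trans (k3.side hw w2).symm]; exact spw))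
    rw [e1] at k3'
    obtain ⟨T, hT⟩ := List.getLast?_eq_some_iff.mp k4
    rw [hT] at k3'
    exact k3'.sc hw' (P := g2 :: T) (Q := []) (by simp)
  have hf : f ∈ s.2 := List.mem_of_getLast? hg.last
  have kw : kp p s (tri p c e w) w = true := ktri w (by simp [tri])
  refine hnd (DG.mono ((hN Ω p f _ c e w hT s1 ?_ ?_ ?_ ?_ ?_).fil hg hq hm) hK3)
  · rw [NA.pd_of_sc s2]; exact hG'.mg
  · rw [s3]; exact hG'.mr
  · rw [NA.pd_of_sc s2]; exact NA.pd_of_sc a1
  · rw [s3]; exact a2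
  · exact (lin_fil hw hq (hm f (Or.inr ⟨hf, hg.fA⟩)) hg.fA kw (by rw [hq]; exact kw)).mpr hL

end T1C
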