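import Pool.Agent.helper72.T1.HH

/-!
# MP_c8d30a, exponent 12: contact lemma, part 5: nests and near tokens
-/

set_option autoImplicit false
set_option linter.unusedSectionVars false

namespace T1C

open Equiv List NTH

variable {Ω : Type} [DecidableEq Ω] {p : Ω → Ω} {f : Ω} {s : St Ω}

/-- a word with pairwise nested letters is a nest. -/
theorem antipal (hp : ∀ t : Ω, p (p t) = t) (hpn : ∀ t : Ω, p t ≠ t) : ∀ (n : ℕ) (G : List Ω), G.length ≤ n → G.Nodup →
    (∀ t ∈ G, p t ∈ G) → (∀ c d, c ∈ G → d ∈ G → d ≠ c → d ≠ p c → (G.filter (lt2 p c d)).reverse = (G.filter (lt2 p c d)).map p) →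
    G.reverse = G.map p := by
  intro n
  induction n with
  | zero =>
    intro G h1 _ _ _
    rw [List.length_eq_zero_iff.mp (by omega : G.length = 0)]; rfl
  | succ n ih =>
    intro G h1 h2 h3 h4
    cases G with
    | nil => rfl
    | cons a G1 =>
      obtain ⟨n1, n2⟩ := List.nodup_cons.mp h2
      have ha : p a ∈ G1 := by
        rcases List.mem_cons.mp (h3 a List.mem_cons_self) with h | h
        · exact absurd h (hpn a)
        · exact h
      rcases List.eq_nil_or_concat G1 with rfl | ⟨G2, b, rfl⟩
      · simp at ha
      rw [List.concat_eq_append] at *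
      have hb : b = p a := by
        by_contra hb
        have hba : b ≠ a := by rintro rfl; exact n1 (by simp)
        have h5 := h4 a b List.mem_cons_self (by simp) hba hb
        have ta : lt2 p a b a = true := by simp [lt2]
        have tb : lt2 p a b b = true := by simp [lt2]
        rw [List.filter_cons_of_pos ta, List.filter_append, List.filter_cons_of_pos tb] at h5
        simp only [List.filter_nil, List.reverse_cons, List.reverse_append, List.reverse_nil, List.nil_append, List.cons_append,
          List.map_cons, List.cons.injEq] at h5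
        exact hb h5.1
      subst hb
      have hn3 := List.nodup_append.mp n2
      have aG2 : a ∉ G2 := fun h => n1 (List.mem_append_left _ h)
      have paG2 : p a ∉ G2 := fun h => hn3.2.2 _ h _ (List.mem_singleton_self _) rfl
      have h5 := ih G2 (by simp only [List.length_cons, List.length_append, List.length_nil] at h1; omega) hn3.1 ?_ ?_
      · simp only [List.reverse_cons, List.reverse_append, List.reverse_nil, List.nil_append, List.cons_append, List.map_cons,
          List.map_append, List.map_nil, hp]
        rw [h5]
      · intro t ht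
        have h6 := h3 t (List.mem_cons_of_mem _ (List.mem_append_left _ ht))
        rcases List.mem_cons.mp h6 with h7 | h7
        · exfalso; apply paG2; rw [← h7, hp]; exact ht
        · rcases List.mem_append.mp h7 with h8 | h8
          · exact h8
          · exfalso
            have h9 := congrArg p (List.mem_singleton.mp h8)
            rw [hp, hp] at h9
            exact aG2 (h9 ▸ ht)
      · intro c d hc hd e1 e2
        have h6 := h4 c d (List.mem_cons_of_mem _ (List.mem_append_left _ hc)) (List.mem_cons_of_mem _ (List.mem_append_left _ hd)) e1 e2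
        have k1 : ∀ x ∈ G2, a ≠ x ∧ a ≠ p x := by
          intro x hx
          refine ⟨fun e => aG2 (e ▸ hx), fun e => paG2 ?_⟩
          rw [e, hp]; exact hx
        have ta : lt2 p c d a = false := by
          unfold lt2; rw [decide_eq_false_iff_not]
          rintro (h | h | h | h)
          · exact (k1 c hc).1 h
          · exact (k1 c hc).2 h
          · exact (k1 d hd).1 h
          · exact (k1 d hd).2 h
        have tb : lt2 p c d (p a) = false := by
          unfold lt2; rw [decide_eq_false_iff_not]
          rintro (h | h | h | h)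
          · exact (k1 c hc).2 (by rw [← h, hp])
          · exact (k1 c hc).1 (by have := congrArg p h; rwa [hp, hp] at this)
          · exact (k1 d hd).2 (by rw [← h, hp])
          · exact (k1 d hd).1 (by have := congrArg p h; rwa [hp, hp] at this)
        rw [List.filter_cons_of_neg (by simp [ta]), List.filter_append, List.filter_cons_of_neg (by simp [tb])] at h6
        simpa using h6

theorem two_filter (hpn : ∀ t : Ω, p t ≠ t) {G : List Ω} {c : Ω} (hn : G.Nodup) (h1 : c ∈ G) (h2 : p c ∈ G) :
    G.filter (lt1 p c) = [c, p c] ∨ G.filter (lt1 p c) = [p c, c] := by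
  have a1 : c ∈ G.filter (lt1 p c) := List.mem_filter.mpr ⟨h1, by simp [lt1]⟩
  have a2 : p c ∈ G.filter (lt1 p c) := List.mem_filter.mpr ⟨h2, by simp [lt1]⟩
  have a3 : ∀ x ∈ G.filter (lt1 p c), x = c ∨ x = p c := by
    intro x hx
    have := (List.mem_filter.mp hx).2
    unfold lt1 at this
    exact decide_eq_true_iff.mp this
  have a4 := hn.filter (lt1 p c)
  generalize G.filter (lt1 p c) = F at *
  match F, a1, a2, a3, a4 with
  | [], a1, _, _, _ => simp at a1
  | [x], a1, a2, _, _ =>
    exfalso
    rw [List.mem_singleton] at a1 a2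
    exact hpn c (a2.trans a1.symm)
  | [x, y], a1, a2, a3, a4 =>
    have h3 := a3 x (by simp)
    have h4 := a3 y (by simp)
    have h5 : x ≠ y := by simpa using a4
    rcases h3 with rfl | rfl <;> rcases h4 with rfl | rfl
    · exact absurd rfl h5
    · exact Or.inl rfl
    · exact Or.inr rfl
    · exact absurd rfl h5
  | x :: y :: z :: F, a1, a2, a3, a4 =>
    exfalso
    have h3 := a3 x (by simp)
    have h4 := a3 y (by simp)
    have h5 := a3 z (by simp)
    simp only [List.nodup_cons, List.mem_cons, not_or] at a4
    obtain ⟨⟨e1, e2, -⟩, ⟨e3, -⟩, -⟩ := a4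
    rcases h3 with h3 | h3 <;> rcases h4 with h4 | h4 <;> rcases h5 with h5 | h5 <;> first
      | exact e1 (h3.trans h4.symm)
      | exact e2 (h3.trans h5.symm)
      | exact e3 (h4.trans h5.symm)

section near

theorem mu_eq {t : Ω} : NA.mu p s t = NA.pd s (p (NA.sc s t)) := rfl

theorem chain_get (hw : WF p s) {g r : Ω} {G : List Ω} (h : GapS p s g G r) (j : ℕ) (hj : j < G.length) :
    NA.sc s ((g :: G)[j]'(by simp; omega)) = G[j] := by
  have e : g :: (G ++ [r]) = (g :: G).take j ++ (g :: G)[j]'(by simp; omega) :: G[j] :: (G.drop (j + 1) ++ [r]) := by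
    have h1 : (g :: G) = (g :: G).take j ++ (g :: G)[j]'(by simp; omega) :: (g :: G).drop (j + 1) := by
      rw [List.getElem_cons_drop, List.take_append_drop]
    have h2 : (g :: G).drop (j + 1) = G[j] :: G.drop (j + 1) := by
      rw [List.drop_succ_cons, List.drop_eq_getElem_cons hj]
    calc g :: (G ++ [r]) = (g :: G) ++ [r] := rfl
      _ = ((g :: G).take j ++ (g :: G)[j]'(by simp; omega) :: (g :: G).drop (j + 1)) ++ [r] := by rw [← h1]
      _ = _ := by rw [h2]; simp only [List.append_assoc, List.cons_append]
  exact h.sc hw e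

theorem near_gap (hw : WF p s) {g r : Ω} {G : List Ω} (h : GapS p s g G r) (hpal : G.reverse = G.map p) {r0 : Ω → Ω} {k : ℕ}
    {L0 : List Ω} (hg : g ∈ Wr p (NA.mu p s) r0 k L0) : ∀ t ∈ g :: G, t ∈ Wr p (NA.mu p s) r0 (k + G.length + 1) L0 := by
  have hp := hw.inv
  have mono : ∀ {a b : ℕ} {x : Ω}, a ≤ b → x ∈ Wr p (NA.mu p s) r0 a L0 → x ∈ Wr p (NA.mu p s) r0 b L0 :=
    fun hab hx => Wr_mono hab (fun x hx => hx) hx
  have hpg : ∀ i (hi : i < G.length), p G[i] = G[G.length - 1 - i]'(by omega) := by
    intro i hi
    have h1 : (G.map p)[i]'(by simpa using hi) = p G[i] := by simp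
    have h2 : G.reverse[i]'(by simpa using hi) = G[G.length - 1 - i]'(by omega) := by
      rw [List.getElem_reverse]
    rw [← h1, ← h2]
    congr 1
    exact hpal.symm
  have hmu : ∀ j (hj : j < G.length), NA.mu p s ((g :: G)[j]'(by simp; omega)) = (g :: G)[G.length - 1 - j]'(by simp; omega) := by
    intro j hj
    rw [mu_eq, chain_get hw h j hj, hpg j hj]
    exact NA.pd_of_sc (chain_get hw h (G.length - 1 - j) (by omega))
  have heven : ∀ i (hi : 2 * i ≤ G.length), (g :: G)[2 * i]'(by simp; omega) ∈ Wr p (NA.mu p s) r0 (k + 2 * i) L0 := by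
    intro i
    induction i with
    | zero => intro _; exact hg
    | succ i ih =>
      intro hi
      have h1 := ih (by omega)
      have h2 := Wr_q h1
      rw [hmu (2 * i) (by omega)] at h2
      have h3 := Wr_p h2
      have e1 : p ((g :: G)[G.length - 1 - 2 * i]'(by simp; omega)) = (g :: G)[2 * (i + 1)]'(by simp; omega) := by
        have e2 : (g :: G)[G.length - 1 - 2 * i]'(by simp; omega) = G[G.length - 1 - 2 * i - 1]'(by omega) := by
          rw [List.getElem_cons, dif_neg (by omega)]
        have e3 : (g :: G)[2 * (i + 1)]'(by simp; omega) = G[2 * (i + 1) - 1]'(by omega) := by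
          rw [List.getElem_cons, dif_neg (by omega)]
        rw [e2, e3, hpg _ (by omega)]
        congr 1
        omega
      rw [e1] at h3
      exact mono (by omega) h3
  have hpar : G.length % 2 = 0 := by
    by_contra h1
    have h2 := hpg (G.length / 2) (by omega)
    have h3 : G.length - 1 - G.length / 2 = G.length / 2 := by omega
    simp only [h3] at h2
    exact hw.ne _ h2
  intro t ht
  obtain ⟨j, hj, rfl⟩ := List.getElem_of_mem ht
  have hj' : j ≤ G.length := by simpa [Nat.lt_succ_iff] using hj
  rcases Nat.even_or_odd' j with ⟨i, rfl | rfl⟩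
  · exact mono (by omega) (heven i hj')
  · have h1 := heven ((G.length - 2 * i) / 2) (by omega)
    have h2 := Wr_p h1
    have e1 : p ((g :: G)[2 * ((G.length - 2 * i) / 2)]'(by simp; omega)) = (g :: G)[2 * i + 1] := by
      have e2 : (g :: G)[2 * ((G.length - 2 * i) / 2)]'(by simp; omega) = G[G.length - 2 * i - 1]'(by omega) := by
        rw [List.getElem_cons, dif_neg (by omega)]
        congr 1
        omega
      have e3 : (g :: G)[2 * i + 1] = G[2 * i]'(by omega) := by
        rw [List.getElem_cons, dif_neg (by omega)]
        congr 1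
      rw [e2, e3, hpg _ (by omega)]
      congr 1
      omega
    rw [e1] at h2
    exact mono (by omega) h2

end near

end T1C
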