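import Pool.Agent.helper72.T1.Gap
import Pool.Agent.helper14.NTN.Asm

/-!
# MP_c8d30a, exponent 12: contact lemma, part 2: substates, good drops
-/

set_option autoImplicit false
set_option linter.unusedSectionVars false

namespace T1C

open Equiv List NTH
open Pool.Agent.helper32.RH (RTs rot_split lift_fil mx_lt mx_le)

variable {Ω : Type} [DecidableEq Ω] {p : Ω → Ω} {f : Ω}

/-- a good drop. -/
def DG (p : Ω → Ω) (K : ℕ) (f : Ω) (s : St Ω) : Prop :=
  ∃ s', RTs p K s s' ∧ GP p f s' ∧ (s'.1 ++ s'.2).Perm (s.1 ++ s.2) ∧ NTS.D2 p s' < NTS.D2 p s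

theorem DG.mono {a b : ℕ} {f : Ω} {s : St Ω} (h : DG p a f s) (hab : a ≤ b) : DG p b f s := by
  obtain ⟨s', h1, h2⟩ := h
  exact ⟨s', h1.mono hab, h2⟩

/-- linear order (the wall is between the end and the start). -/
def Lin (p : Ω → Ω) (f : Ω) (s : St Ω) (t u : Ω) : Prop := [t, u] <+ s.2 ∨ ∃ A, s.1 ~r A ++ [p f] ∧ [t, u] <+ A

/-- the keep set of all mixed tokens and the list. -/
def kp (p : Ω → Ω) (s : St Ω) (l : List Ω) (t : Ω) : Bool :=
  decide (((t ∈ s.1 ∧ p t ∈ s.2) ∨ (t ∈ s.2 ∧ p t ∈ s.1)) ∨ t ∈ l)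

/-- the tokens of three letters. -/
def tri (p : Ω → Ω) (c d z : Ω) : List Ω := [c, p c, d, p d, z, p z]

theorem kp_iff {s : St Ω} {l : List Ω} {t : Ω} : kp p s l t = true ↔ Mx p s t ∨ t ∈ l := by
  unfold kp Mx NA.MA NA.MB
  rw [decide_eq_true_iff]

theorem mem_tri {c d z t : Ω} : t ∈ tri p c d z ↔ t = c ∨ t = p c ∨ t = d ∨ t = p d ∨ t = z ∨ t = p z := by
  simp [tri]

theorem p_eq {s : St Ω} (hw : WF p s) {a b : Ω} : p a = b ↔ a = p b := by
  constructor
  · rintro rfl; rw [hw.inv]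
  · rintro rfl; rw [hw.inv]

theorem tri_p {s : St Ω} (hw : WF p s) {c d z t : Ω} : p t ∈ tri p c d z ↔ t ∈ tri p c d z := by
  simp only [mem_tri, p_eq hw, hw.inv]
  tauto

theorem kp_p {s : St Ω} (hw : WF p s) {c d z : Ω} (t : Ω) : kp p s (tri p c d z) (p t) = kp p s (tri p c d z) t := by
  rw [Bool.eq_iff_iff, kp_iff, kp_iff, tri_p hw]
  have : Mx p s (p t) ↔ Mx p s t := ⟨fun h => by have := h.sym hw; rwa [hw.inv] at this, fun h => h.sym hw⟩
  rw [this]

section fil

variable {s : St Ω} {q : Ω → Bool}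

theorem mx_fil (hq : ∀ t, q (p t) = q t) (hm : ∀ t, Mx p s t → q t = true) {t : Ω} : Mx p (NA.fil q s) t ↔ Mx p s t := by
  constructor
  · intro h
    unfold Mx NA.MA NA.MB NA.fil at h
    simp only [List.mem_filter] at h
    unfold Mx NA.MA NA.MB
    tauto
  · intro h
    have h1 := hm t h
    have h2 := hq t
    rw [h1] at h2
    unfold Mx NA.MA NA.MB NA.fil
    unfold Mx NA.MA NA.MB at h
    simp only [List.mem_filter]
    tauto

theorem cd_fil (hq : ∀ t, q (p t) = q t) {t : Ω} : Cd p (NA.fil q s) t ↔ Cd p s t ∧ q t = true := by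
  have h2 := hq t
  unfold Cd NA.Red NA.Blu NA.fil
  simp only [List.mem_filter, h2]
  tauto

theorem GapS.fil (hq : ∀ t, q (p t) = q t) (hm : ∀ t, Mx p s t → q t = true) {g r : Ω} {G : List Ω} (h : GapS p s g G r) :
    GapS p (NA.fil q s) g (G.filter q) r := by
  obtain ⟨R, h1, h2⟩ := h.rot
  have hqg := hm g h.mg
  have hqr := hm r h.mr
  refine ⟨(mx_fil hq hm).mpr h.mg, (mx_fil hq hm).mpr h.mr, ?_, R.filter q, ?_, ?_⟩
  · intro t ht
    rw [List.mem_filter] at ht
    exact (cd_fil hq).mpr ⟨h.col t ht.1, ht.2⟩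
  · have e : (g :: (G ++ R)).filter q = g :: (G.filter q ++ R.filter q) := by
      rw [List.filter_cons_of_pos hqg, List.filter_append]
    rcases h1 with h1 | h1
    · left
      have := rot_filter h1 q
      rwa [e] at this
    · right
      have := rot_filter h1 q
      rwa [e] at this
  · cases R with
    | nil => exact h2
    | cons a R =>
      simp only [List.cons_append, List.head?_cons, Option.some.injEq] at h2
      subst h2
      rw [List.filter_cons_of_pos hqr]
      rfl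

theorem last_filter {l : List Ω} {f : Ω} (h : l.getLast? = some f) (hf : q f = true) : (l.filter q).getLast? = some f := by
  obtain ⟨Y, hY⟩ := List.getLast?_eq_some_iff.mp h
  rw [hY, List.filter_append]
  simp [hf]

theorem gp_fil (hg : GP p f s) (hq : ∀ t, q (p t) = q t) (hm : ∀ t, Mx p s t → q t = true) {c z : Ω} (hc : Cd p s c) (hz : Cd p s z)
    (hqc : q c = true) (hqz : q z = true) (hcz : z ∈ s.1 ↔ c ∉ s.1) : GP p f (NA.fil q s) := by
  have hw := hg.wf
  have hf : f ∈ s.2 := List.mem_of_getLast? hg.last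
  have hqf : q f = true := hm f (Or.inr ⟨hf, hg.fA⟩)
  have hc' := (cd_fil hq).mpr ⟨hc, hqc⟩
  have hz' := (cd_fil hq).mpr ⟨hz, hqz⟩
  have k1 : ∀ t, t ∈ (NA.fil q s).1 → t ∈ s.1 := fun t ht => (List.mem_filter.mp ht).1
  have k2 : ∀ t, t ∈ (NA.fil q s).2 → t ∈ s.2 := fun t ht => (List.mem_filter.mp ht).1
  refine ⟨NA.wf_fil hq hw, last_filter hg.last hqf, List.mem_filter.mpr ⟨hg.fA, by rw [hq]; exact hqf⟩, ?_, ?_⟩
  · rcases hc' with h | h
    · exact ⟨c, h⟩
    · rcases hz' with h' | h'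
      · exact ⟨z, h'⟩
      · exact absurd (k2 _ h'.1) (dis hw (hcz.mpr (fun h1 => dis hw h1 (k2 _ h.1))))
  · rcases hz' with h | h
    · rcases hc' with h' | h'
      · exact absurd (k1 _ h'.1) (hcz.mp (k1 _ h.1))
      · exact ⟨c, h'⟩
    · exact ⟨z, h⟩

/-- lifting of good drops. -/
theorem DG.fil {K : ℕ} (hg : GP p f s) (hq : ∀ t, q (p t) = q t) (hm : ∀ t, Mx p s t → q t = true) (h : DG p K f (NA.fil q s)) :
    DG p K f s := by
  obtain ⟨u, h1, h2, h3, h4⟩ := h
  have hw := hg.wf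
  have hf : f ∈ s.2 := List.mem_of_getLast? hg.last
  have hqf : q f = true := hm f (Or.inr ⟨hf, hg.fA⟩)
  obtain ⟨s', r1, r2, r3, r4⟩ := lift_fil hw ⟨p f, hg.fA, by rw [hq]; exact hqf⟩ h1 h3
  have hw' : WF p s' := NA.wf_perm hw r3.symm
  have e1 : ∀ v, v ∈ u.1 → v ∈ s'.1 := by
    intro v hv; rw [← r2] at hv; exact (List.mem_filter.mp hv).1
  have e2 : ∀ v, v ∈ u.2 → v ∈ s'.2 := by
    intro v hv; rw [← r2] at hv; exact (List.mem_filter.mp hv).1
  refine ⟨s', r1, ⟨hw', r4 f hg.last h2.last, e1 _ h2.fA, ?_, ?_⟩, r3, ?_⟩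
  · obtain ⟨o, ho⟩ := h2.red
    exact ⟨o, e1 _ ho.1, e1 _ ho.2⟩
  · obtain ⟨o, ho⟩ := h2.blu
    exact ⟨o, e2 _ ho.1, e2 _ ho.2⟩
  · have a1 := NA.D2_mx hw
    have a2 := NA.D2_mx hw'
    have a3 := NA.D2_mx (NA.wf_fil hq hw : WF p (NA.fil q s))
    have a4 := NA.D2_mx h2.wf
    have l1 := r3.length_eq
    have l2 := h3.length_eq
    have g1 : NA.mx p s ≤ NA.mx p (NA.fil q s) := by
      apply mx_le (List.nodup_append.mp hw.nd).1 ((List.nodup_append.mp hw.nd).1.filter _)
      intro v v1 v2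
      have hqv := hm v (Or.inl ⟨v1, v2⟩)
      exact ⟨List.mem_filter.mpr ⟨v1, hqv⟩, List.mem_filter.mpr ⟨v2, by rw [hq]; exact hqv⟩⟩
    have g2 : NA.mx p u ≤ NA.mx p s' := by
      apply mx_le (List.nodup_append.mp h2.wf.nd).1 (List.nodup_append.mp hw'.nd).1
      intro v v1 v2
      exact ⟨e1 v v1, e2 _ v2⟩
    omega

theorem sub_filter {l : List Ω} {t u : Ω} (ht : q t = true) (hu : q u = true) : [t, u] <+ l.filter q ↔ [t, u] <+ l := by
  constructor
  · exact fun h => h.trans List.filter_sublist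
  · intro h
    have := h.filter q
    simpa [ht, hu] using this

theorem lin_fil (hw : WF p s) (hq : ∀ t, q (p t) = q t) (hqf : q f = true) (hfA : p f ∈ s.1) {t u : Ω} (ht : q t = true)
    (hu : q u = true) : Lin p f (NA.fil q s) t u ↔ Lin p f s t u := by
  have hqpf : q (p f) = true := by rw [hq]; exact hqf
  have e : ∀ A : List Ω, (A ++ [p f]).filter q = A.filter q ++ [p f] := by
    intro A; rw [List.filter_append]; simp [hqpf]
  unfold Lin
  constructor
  · rintro (h | ⟨A', h1, h2⟩)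
    · exact Or.inl ((sub_filter ht hu).mp h)
    · right
      obtain ⟨T, hT⟩ := rot_to hfA
      have hT' : s.1 ~r T ++ [p f] := hT.trans (List.IsRotated.cons_append_singleton)
      refine ⟨T, hT', ?_⟩
      have h3 := rot_filter hT' q
      rw [e] at h3
      have hn : (NA.fil q s).1.Nodup := (List.nodup_append.mp hw.nd).1.filter _
      have h4 : A' = T.filter q := by
        have h5 : (NA.fil q s).1 ~r p f :: A' := h1.trans (List.IsRotated.cons_append_singleton).symm
        have h6 : (NA.fil q s).1 ~r p f :: T.filter q := h3.trans (List.IsRotated.cons_append_singleton).symm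
        exact rot_cons hn h5 h6
      rw [h4] at h2
      exact (sub_filter ht hu).mp h2
  · rintro (h | ⟨A', h1, h2⟩)
    · exact Or.inl ((sub_filter ht hu).mpr h)
    · right
      refine ⟨A'.filter q, ?_, (sub_filter ht hu).mpr h2⟩
      have := rot_filter h1 q
      rwa [e] at this

end fil

end T1C
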