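import Pool.Agent.helper72.T1.Frame
import Pool.Agent.helper55.BG.ParA
import Pool.Agent.helper55.BG.ParB
import Pool.Agent.helper55.BG.NestA
import Pool.Agent.helper55.BG.NestB

/-!
# MP_c8d30a, exponent 12: contact lemma, part 7: the table statements
-/

set_option autoImplicit false
set_option linter.unusedSectionVars false

namespace T1C

open Equiv List NTH
open Pool.Agent.helper32.RH (fp_mid fp_lst rot_split)
open Pool.Agent.helper55.BG (Dr NestQ)

variable {Ω : Type} [DecidableEq Ω] {p : Ω → Ω} {f : Ω}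

theorem SC6 : SC_stmt 6 := by
  intro Ω _ p f s c d z hT hs
  have hg := hT.gp
  have hw := hg.wf
  have hp := hw.inv
  have inj : ∀ a b, p a = p b → a = b := fun a b h => by rw [← hp a, h, hp]
  have zc := side_ne0 hw hT.cz (t := c) (by rw [hT.sz]; exact fun h => iff_not_self h.symm)
  have zd := side_ne0 hw hT.cz (t := d) (by rw [hT.sz, hT.sd]; exact fun h => iff_not_self h.symm)
  have hD : NTS.D2 p s = 6 := by
    rw [NP.D2_card hw]
    have e : NP.CS p s = [c, p c, d, p d, z, p z].toFinset := by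
      ext t
      rw [NP.mem_CS, List.mem_toFinset]
      constructor
      · exact fun h => hT.only t h
      · intro h
        rcases tri_cases' h with (rfl | rfl | rfl | rfl) | (rfl | rfl)
        · exact hT.cc
        · exact hT.cc.sym hw
        · exact hT.cd
        · exact hT.cd.sym hw
        · exact hT.cz
        · exact hT.cz.sym hw
    have nd : [c, p c, d, p d, z, p z].Nodup := by
      simp only [List.nodup_cons, List.mem_cons, List.not_mem_nil, or_false, not_or, List.nodup_nil, and_true, not_false_eq_true]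
      refine ⟨⟨(hw.ne c).symm, hT.ne.symm, ?_, zc.1, zc.2⟩, ⟨hT.ne'.symm, ?_, ?_, ?_⟩, ⟨(hw.ne d).symm, zd.1, zd.2⟩, ⟨?_, ?_⟩, (hw.ne z).symm⟩
      · exact fun h => hT.ne' (by rw [h, hp])
      · exact fun h => hT.ne (inj _ _ h).symm
      · exact fun h => zc.2 (by rw [← h, hp])
      · exact fun h => zc.1 (inj _ _ h)
      · exact fun h => zd.2 (by rw [← h, hp])
      · exact fun h => zd.1 (inj _ _ h)
    rw [e, List.toFinset_card_of_nodup nd]
    rfl
  rcases NP.SC hg hD hT.cc (by rw [hs]; exact hT.cd) (by rw [hs]; exact hT.ne') with h | h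
  · left
    exact h
  · right
    rwa [hs] at h

theorem split_adj {l : List Ω} {h c d : Ω} (hn : (l ++ [h]).Nodup) (hc : c ∈ l) (hs : (l ++ [h]).formPerm c = d) (hd : d ∈ l) :
    ∃ P Q, l = P ++ c :: d :: Q := by
  obtain ⟨P, Q, rfl⟩ := List.append_of_mem hc
  cases Q with
  | nil =>
    exfalso
    have e : (P ++ [c]) ++ [h] = P ++ c :: h :: [] := by simp
    rw [e] at hs hn
    rw [fp_mid hn] at hs
    rw [← hs] at hd
    have := (List.nodup_append.mp (by simpa using hn : ((P ++ [c]) ++ [h]).Nodup)).2.2 h hd h (List.mem_singleton_self _)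
    exact this rfl
  | cons x Q =>
    have e : (P ++ c :: x :: Q) ++ [h] = P ++ c :: x :: (Q ++ [h]) := by simp
    rw [e] at hs hn
    rw [fp_mid hn] at hs
    exact ⟨P, Q, by rw [hs]⟩

theorem split_two {l : List Ω} {h a b c d : Ω} (hn : (l ++ [h]).Nodup) (ha : a ∈ l) (hb : b ∈ l) (hc : c ∈ l) (hd : d ∈ l)
    (h1 : (l ++ [h]).formPerm a = b) (h2 : (l ++ [h]).formPerm c = d) (ac : c ≠ a) (bc : c ≠ b) (ad : d ≠ a) :
    (∃ P Q R, l = P ++ a :: b :: (Q ++ c :: d :: R)) ∨ (∃ P Q R, l = P ++ c :: d :: (Q ++ a :: b :: R)) := by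
  obtain ⟨P, Q, e⟩ := split_adj hn ha h1 hb
  obtain ⟨P', Q', e'⟩ := split_adj hn hc h2 hd
  have hc' : c ∈ P ∨ c ∈ Q := by
    rw [e] at hc
    rcases List.mem_append.mp hc with h3 | h3
    · exact Or.inl h3
    · rcases List.mem_cons.mp h3 with h3 | h3
      · exact absurd h3 ac
      · rcases List.mem_cons.mp h3 with h3 | h3
        · exact absurd h3 bc
        · exact Or.inr h3
  have hnl : l.Nodup := (List.nodup_append.mp hn).1
  rcases hc' with h3 | h3
  · right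
    obtain ⟨P1, P2, rfl⟩ := List.append_of_mem h3
    cases P2 with
    | nil =>
      exfalso
      have e2 : l ++ [h] = P1 ++ c :: a :: (b :: (Q ++ [h])) := by rw [e]; simp
      rw [e2] at h2 hn
      rw [fp_mid hn] at h2
      exact ad h2.symm
    | cons x P2 =>
      have e2 : l ++ [h] = P1 ++ c :: x :: (P2 ++ a :: b :: (Q ++ [h])) := by rw [e]; simp
      rw [e2] at h2 hn
      rw [fp_mid hn] at h2
      subst h2
      exact ⟨P1, P2, Q, by rw [e]; simp⟩
  · left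
    obtain ⟨Q1, Q2, rfl⟩ := List.append_of_mem h3
    cases Q2 with
    | nil =>
      exfalso
      have e2 : l ++ [h] = (P ++ a :: b :: Q1) ++ c :: h :: [] := by rw [e]; simp
      have h4 := h2
      rw [e2] at h4
      rw [fp_mid (by rw [← e2]; exact hn)] at h4
      exact (List.nodup_append.mp hn).2.2 d hd h (List.mem_singleton_self _) h4.symm
    | cons x Q2 =>
      have e2 : l ++ [h] = (P ++ a :: b :: Q1) ++ c :: x :: (Q2 ++ [h]) := by rw [e]; simp
      rw [e2] at h2 hn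
      rw [fp_mid hn] at h2
      subst h2
      exact ⟨P, Q1, Q2, e⟩

theorem split_z {l : List Ω} {z w : Ω} (hz : z ∈ l) (hw : w ∈ l) (hne : w ≠ z) :
    (∃ P Q R, l = P ++ z :: (Q ++ w :: R)) ∨ (∃ P Q R, l = P ++ w :: (Q ++ z :: R)) := by
  obtain ⟨P, Q, rfl⟩ := List.append_of_mem hz
  rcases List.mem_append.mp hw with h3 | h3
  · right
    obtain ⟨P1, P2, rfl⟩ := List.append_of_mem h3
    exact ⟨P1, P2, Q, by simp⟩
  · left
    rcases List.mem_cons.mp h3 with h3 | h3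
    · exact absurd h3 hne
    · obtain ⟨P1, P2, rfl⟩ := List.append_of_mem h3
      exact ⟨P, P1, P2, rfl⟩

theorem four_out {b0 b1 b2 : List Ω} {a b c d t : Ω} (hn : (b0 ++ (a :: (b :: (b1 ++ (c :: (d :: b2)))))).Nodup)
    (ht : t ∈ b0 ∨ t ∈ b1 ∨ t ∈ b2) : t ≠ a ∧ t ≠ b ∧ t ≠ c ∧ t ≠ d := by
  grind

theorem two_out {b0 b1 b2 : List Ω} {a b t : Ω} (hn : (b0 ++ (a :: (b1 ++ (b :: b2)))).Nodup)
    (ht : t ∈ b0 ∨ t ∈ b1 ∨ t ∈ b2) : t ≠ a ∧ t ≠ b := by
  grind

theorem PAR_U {b : Bool} {c d z h h' : Ω} {b0 b1 b2 b3 b4 b5 : List Ω} (he : En p f b h h')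
    (hw : WF p (mk b (b0 ++ (c :: (d :: (b1 ++ (p d :: (p c :: (b2 ++ ([h])))))))) (b3 ++ (z :: (b4 ++ (p z :: (b5 ++ ([h']))))))))
    (hx : ∀ t, t ∈ b0 ∨ t ∈ b1 ∨ t ∈ b2 → p t ∈ b3 ++ (z :: (b4 ++ (p z :: (b5 ++ ([h']))))))
    (hy : ∀ t, t ∈ b3 ∨ t ∈ b4 ∨ t ∈ b5 → p t ∈ b0 ++ (c :: (d :: (b1 ++ (p d :: (p c :: (b2 ++ ([h])))))))) :
    Dr p 9 f (mk b (b0 ++ (c :: (d :: (b1 ++ (p d :: (p c :: (b2 ++ ([h])))))))) (b3 ++ (z :: (b4 ++ (p z :: (b5 ++ ([h']))))))) ∨
      NestQ p (mk b (b0 ++ (c :: (d :: (b1 ++ (p d :: (p c :: (b2 ++ ([h])))))))) (b3 ++ (z :: (b4 ++ (p z :: (b5 ++ ([h']))))))) c d z := by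
  rcases he with ⟨rfl, rfl, rfl⟩ | ⟨rfl, rfl, rfl⟩
  · exact Pool.Agent.helper55.BG.PAR_A hw hx hy
  · exact Pool.Agent.helper55.BG.PAR_B hw hy hx

theorem fra_par {s : St Ω} {c d z h h' : Ω} {b : Bool} {U V : List Ω} (hF : Fra p f s c d z b U V h h') (hw : WF p s)
    {a a' w : Ω} {P Q R P' Q' R' : List Ω}
    (hU : U = P ++ a :: a' :: (Q ++ p a' :: p a :: R)) (hV : V = P' ++ w :: (Q' ++ p w :: R'))
    (ha : ∀ t, (t = c ∨ t = p c ∨ t = d ∨ t = p d) → (t = a ∨ t = a' ∨ t = p a' ∨ t = p a))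
    (hz : ∀ t, (t = z ∨ t = p z) → (t = w ∨ t = p w)) :
    DG p 9 f s ∨ NestQ p s a a' w := by
  have hUV := hF.wf
  have hn := mk_nd hUV.nd
  have hnn := List.nodup_append.mp hn
  have eU : U ++ [h] = P ++ (a :: (a' :: (Q ++ (p a' :: (p a :: (R ++ [h])))))) := by rw [hU]; simp
  have eV : V ++ [h'] = P' ++ (w :: (Q' ++ (p w :: (R' ++ [h'])))) := by rw [hV]; simp
  have nU := hnn.1
  have nV := hnn.2.1
  have mU := hF.mU
  have mV := hF.mV
  have dr := hF.dr
  have hsc := hF.sc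
  rw [eU] at nU
  rw [eV] at nV
  rw [eU, eV] at hUV dr hsc mU
  rw [eV, eU] at mV
  have hx : ∀ t, t ∈ P ∨ t ∈ Q ∨ t ∈ R ++ [h] → p t ∈ P' ++ (w :: (Q' ++ (p w :: (R' ++ [h'])))) := by
    intro t ht'
    have h2 := four_out nU ht'
    rcases mU t (by simp only [List.mem_append, List.mem_cons] at ht' ⊢; tauto) with h4 | h4
    · exact h4
    · exfalso
      rcases ha t h4 with h5 | h5 | h5 | h5
      · exact h2.1 h5
      · exact h2.2.1 h5
      · exact h2.2.2.1 h5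
      · exact h2.2.2.2 h5
  have hy : ∀ t, t ∈ P' ∨ t ∈ Q' ∨ t ∈ R' ++ [h'] → p t ∈ P ++ (a :: (a' :: (Q ++ (p a' :: (p a :: (R ++ [h])))))) := by
    intro t ht'
    have h2 := two_out nV ht'
    rcases mV t (by simp only [List.mem_append, List.mem_cons] at ht' ⊢; tauto) with h4 | h4
    · exact h4
    · exfalso
      rcases hz t h4 with h5 | h5
      · exact h2.1 h5
      · exact h2.2 h5
  rcases PAR_U hF.en hUV (fun t ht => hx t (by
      rcases ht with h3 | h3 | h3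
      · exact Or.inl h3
      · exact Or.inr (Or.inl h3)
      · exact Or.inr (Or.inr (List.mem_append_left _ h3))))
    (fun t ht => hy t (by
      rcases ht with h3 | h3 | h3
      · exact Or.inl h3
      · exact Or.inr (Or.inl h3)
      · exact Or.inr (Or.inr (List.mem_append_left _ h3)))) with h1 | h1
  · exact Or.inl (dr 9 h1)
  · right
    unfold NestQ NA.pd at h1 ⊢
    rwa [hsc] at h1

theorem PAR9 : PAR_stmt 9 := by
  intro Ω _ p f s c d z hT h1 h2
  have hg := hT.gp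
  have hw := hg.wf
  have hp := hw.inv
  obtain ⟨b, U, V, h, h', hF⟩ := frame hT
  have hn := mk_nd hF.wf.nd
  have hnn := List.nodup_append.mp hn
  have cU := hF.cU c (Or.inl rfl)
  have c'U := hF.cU (p c) (Or.inr (Or.inl rfl))
  have dU := hF.cU d (Or.inr (Or.inr (Or.inl rfl)))
  have d'U := hF.cU (p d) (Or.inr (Or.inr (Or.inr rfl)))
  have e1 : (U ++ [h]).formPerm c = d := by rw [← hF.fU c (List.mem_append_left _ cU)]; exact h1
  have e2 : (U ++ [h]).formPerm (p d) = p c := by rw [← hF.fU (p d) (List.mem_append_left _ d'U)]; exact h2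
  have n1 : p d ≠ c := fun e => hT.ne' (by rw [← e, hp])
  obtain ⟨w, hwz, P', Q', R', hV⟩ : ∃ w, (w = z ∨ w = p z) ∧ ∃ P' Q' R', V = P' ++ w :: (Q' ++ p w :: R') := by
    rcases split_z (hF.zV z (Or.inl rfl)) (hF.zV (p z) (Or.inr rfl)) (hw.ne z) with ⟨P, Q, R, e⟩ | ⟨P, Q, R, e⟩
    · exact ⟨z, Or.inl rfl, P, Q, R, e⟩
    · exact ⟨p z, Or.inr rfl, P, Q, R, by rw [hp]; exact e⟩
  have hzw : ∀ t, (t = z ∨ t = p z) → (t = w ∨ t = p w) := by
    intro t ht
    rcases hwz with rfl | rfl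
    · exact ht
    · rw [hp]; exact ht.symm
  have hwV : w ∈ V := hF.zV w hwz
  have hpwV : p w ∈ V := hF.zV (p w) (by
    rcases hwz with rfl | rfl
    · exact Or.inr rfl
    · rw [hp]; exact Or.inl rfl)
  have hlin : Lin p f s w (p w) := by
    rw [← hF.ln w (p w) hwV hpwV, hV]
    apply List.Sublist.trans _ (List.sublist_append_right _ _)
    apply List.Sublist.cons_cons
    rw [List.singleton_sublist]
    simp
  -- from NestQ to Fpn
  have cdw : Cd p s w := (by
    rcases hwz with rfl | rfl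
    · exact hT.cz
    · exact hT.cz.sym hw)
  have sw : w ∈ s.1 ↔ c ∉ s.1 := by
    rcases hwz with rfl | rfl
    · exact hT.sz
    · exact (hT.cz.side hw).trans hT.sz
  have sc1 : ∀ t, NA.sc s t ∈ s.1 ↔ t ∈ s.1 := fun t => NA.sc_mem_A hw.nd
  have pd1 : ∀ t, NA.pd s t ∈ s.1 ↔ t ∈ s.1 := by
    intro t
    have := sc1 (NA.pd s t)
    rw [NA.sc_pd] at this
    exact this.symm
  have inS : ∀ t, t ∈ s.1 ++ s.2 → NA.pd s t ∈ s.1 ++ s.2 := by
    intro t ht
    rcases List.mem_append.mp ht with h3 | h3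
    · exact List.mem_append_left _ ((pd1 t).mpr h3)
    · apply List.mem_append_right
      have := (NA.sc_mem_B hw.nd (a := NA.pd s t)).mp (by rw [NA.sc_pd]; exact h3)
      exact this
  have inS' : ∀ t, t ∈ s.1 ++ s.2 → NA.sc s t ∈ s.1 ++ s.2 := by
    intro t ht
    rcases List.mem_append.mp ht with h3 | h3
    · exact List.mem_append_left _ ((sc1 t).mpr h3)
    · exact List.mem_append_right _ ((NA.sc_mem_B hw.nd).mpr h3)
  have mxof : ∀ t u, t ∈ s.1 ++ s.2 → t = p u → (t ∈ s.1 ↔ u ∉ s.1) → Mx p s t := by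
    intro t u ht e h3
    rcases cd_or hw ht with h4 | h4
    · exact h4
    · exfalso
      have h5 := h4.side hw
      rw [e, hp, ← e, h3] at h5
      exact iff_not_self h5
  have conv : ∀ a a' : Ω, (a = c ∨ a = p c ∨ a = d ∨ a = p d) → NestQ p s a a' w → Fpn p f s a a' z := by
    intro a a' ha hQ
    obtain ⟨q1, q2, q3, q4, q5⟩ := hQ
    have ca : Cd p s a ∧ (a ∈ s.1 ↔ c ∈ s.1) := by
      rcases ha with rfl | rfl | rfl | rfl
      · exact ⟨hT.cc, Iff.rfl⟩
      · exact ⟨hT.cc.sym hw, hT.cc.side hw⟩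
      · exact ⟨hT.cd, hT.sd⟩
      · exact ⟨hT.cd.sym hw, (hT.cd.side hw).trans hT.sd⟩
    refine ⟨q2, ?_, ?_, w, hwz, by rw [q4, hp], by rw [q5, hp], hlin⟩
    · apply mxof _ (NA.pd s w) (inS _ ca.1.mem) q4
      rw [pd1, pd1, ca.2, sw]; exact not_not.symm
    · apply mxof _ (NA.sc s (p w)) (inS' _ (ca.1.sym hw).mem) q5
      rw [sc1, sc1, ca.1.side hw, cdw.side hw, ca.2, sw]; exact not_not.symm
  rcases split_two hnn.1 cU dU d'U c'U e1 e2 n1 (hw.ne d) (hw.ne c) with ⟨P, Q, R, e⟩ | ⟨P, Q, R, e⟩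
  · rcases fra_par hF hw e hV (fun t ht => by tauto) hzw with h3 | h3
    · exact Or.inl h3
    · exact Or.inr (Or.inl (conv c d (Or.inl rfl) h3))
  · have e' : U = P ++ p d :: p c :: (Q ++ p (p c) :: p (p d) :: R) := by rw [hp, hp]; exact e
    rcases fra_par hF hw e' hV (fun t ht => by rw [hp, hp]; tauto) hzw with h3 | h3
    · exact Or.inl h3
    · exact Or.inr (Or.inr (conv (p d) (p c) (Or.inr (Or.inr (Or.inr rfl))) h3))

end T1C
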